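import Pool.Agent.VNP.AsLab
/-!
# Finite asymptotic dimension: finite groups, infinite cyclic groups, subgroups, extensions,
polycyclic groups
-/
namespace Pool.Agent.VNP

open scoped commutatorElement

/-- Injective homomorphisms. -/
theorem asdimLE_of_injective {A G : Type} [Group A] [Group G] (φ : A →* G)
    (hφ : Function.Injective φ) {D : ℕ} (h : AsdimLE G D) : AsdimLE A D := by
  intro F hF
  obtain ⟨K, hK, c, hc⟩ := h (φ '' F) (hF.image _)
  refine ⟨φ ⁻¹' K, hK.preimage hφ.injOn, fun a => c (φ a), ?_⟩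
  intro x y hxy
  show φ (x⁻¹ * y) ∈ K
  rw [map_mul, map_inv]
  refine hc _ _ ?_
  induction hxy with
  | refl => exact Relation.ReflTransGen.refl
  | tail _ hab ih =>
    refine ih.tail ⟨hab.1, ?_⟩
    rw [← map_inv, ← map_mul]
    exact Set.mem_image_of_mem _ hab.2

theorem asdimLE_subgroup {G : Type} [Group G] {D : ℕ} (h : AsdimLE G D) (H : Subgroup G) :
    AsdimLE H D :=
  asdimLE_of_injective H.subtype H.subtype_injective h

theorem asdimLE_finite (G : Type) [Group G] [Finite G] : AsdimLE G 0 := fun _ _ =>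
  ⟨Set.univ, Set.finite_univ, fun _ => 0, fun _ _ _ => Set.mem_univ _⟩

/-- The infinite cyclic group. -/
theorem asdimLE_int : AsdimLE (Multiplicative ℤ) 1 := by
  intro F hF
  -- a bound for `F`
  obtain ⟨r, hr0, hr⟩ : ∃ r : ℤ, 0 < r ∧ ∀ f ∈ F, |Multiplicative.toAdd f| < r := by
    obtain ⟨r, hr⟩ := (hF.image fun f => |Multiplicative.toAdd f|).bddAbove
    refine ⟨max r 0 + 1, by positivity, fun f hf => ?_⟩
    have h1 : |Multiplicative.toAdd f| ≤ r := hr ⟨f, hf, rfl⟩
    have h2 := le_max_left r 0
    omega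
  let blk : Multiplicative ℤ → ℤ := fun x => Multiplicative.toAdd x / r
  refine ⟨{g | |Multiplicative.toAdd g| < r}, ?_, fun x => if blk x % 2 = 0 then 0 else 1, ?_⟩
  · have h1 : {g : Multiplicative ℤ | |Multiplicative.toAdd g| < r} ⊆
        Multiplicative.ofAdd '' (Set.Ioo (-r) r) := by
      intro g hg
      refine ⟨Multiplicative.toAdd g, ?_, rfl⟩
      exact abs_lt.1 hg
    exact ((Set.finite_Ioo (-r) r).image _).subset h1
  · intro x y hxy
    have hb : blk x = blk y := by
      induction hxy with
      | refl => rfl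
      | @tail u v _ hab ih =>
        rw [ih]
        have h1 := hr _ hab.2
        have h2 : Multiplicative.toAdd (u⁻¹ * v) = Multiplicative.toAdd v - Multiplicative.toAdd u := by
          rw [toAdd_mul, toAdd_inv]; ring
        rw [h2, abs_lt] at h1
        have h3 : blk u % 2 = blk v % 2 := by
          have h4 : (if blk u % 2 = 0 then (0 : Fin 2) else 1) = if blk v % 2 = 0 then 0 else 1 :=
            hab.1
          rcases Int.emod_two_eq_zero_or_one (blk u) with h5 | h5 <;>
            rcases Int.emod_two_eq_zero_or_one (blk v) with h6 | h6 <;>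
            simp [h5, h6] at h4 ⊢
        set a := Multiplicative.toAdd u with ha
        set b := Multiplicative.toAdd v with hb'
        have e1 : blk u = a / r := rfl
        have e2 : blk v = b / r := rfl
        have d1 := Int.emod_add_mul_ediv a r
        have d2 := Int.emod_add_mul_ediv b r
        have m1 := Int.emod_nonneg a hr0.ne'
        have m2 := Int.emod_nonneg b hr0.ne'
        have m3 := Int.emod_lt_of_pos a hr0
        have m4 := Int.emod_lt_of_pos b hr0
        rw [← e1] at d1
        rw [← e2] at d2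
        -- the difference of the blocks is even and of absolute value less than two
        have h7 : blk v - blk u < 2 := by
          by_contra hcon
          push Not at hcon
          have : r * 2 ≤ r * (blk v - blk u) := mul_le_mul_of_nonneg_left hcon hr0.le
          nlinarith
        have h8 : blk u - blk v < 2 := by
          by_contra hcon
          push Not at hcon
          have : r * 2 ≤ r * (blk u - blk v) := mul_le_mul_of_nonneg_left hcon hr0.le
          nlinarith
        omega
    show |Multiplicative.toAdd (x⁻¹ * y)| < r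
    have h2 : Multiplicative.toAdd (x⁻¹ * y) = Multiplicative.toAdd y - Multiplicative.toAdd x := by
      rw [toAdd_mul, toAdd_inv]; ring
    rw [h2]
    have d1 := Int.emod_add_mul_ediv (Multiplicative.toAdd x) r
    have d2 := Int.emod_add_mul_ediv (Multiplicative.toAdd y) r
    have m1 := Int.emod_nonneg (Multiplicative.toAdd x) hr0.ne'
    have m2 := Int.emod_nonneg (Multiplicative.toAdd y) hr0.ne'
    have m3 := Int.emod_lt_of_pos (Multiplicative.toAdd x) hr0
    have m4 := Int.emod_lt_of_pos (Multiplicative.toAdd y) hr0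
    have e : Multiplicative.toAdd x / r = Multiplicative.toAdd y / r := hb
    rw [e] at d1
    rw [abs_lt]
    constructor <;> linarith

/-- Extensions. -/
theorem asdimLE_ext {G : Type} [Group G] (N : Subgroup G) [N.Normal] {D₁ D₂ : ℕ}
    (h1 : AsdimLE N D₁) (h2 : AsdimLE (G ⧸ N) D₂) :
    AsdimLE G ((D₁ + 1) * (D₂ + 1) - 1) := by
  classical
  intro F hF
  let q : G → G ⧸ N := fun g => (g : G ⧸ N)
  -- symmetric image of `F`
  set F₂ : Set (G ⧸ N) := q '' F ∪ (q '' F)⁻¹ with hF₂
  have hF₂fin : F₂.Finite := (hF.image _).union (hF.image _).inv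
  have hF₂inv : ∀ g ∈ F₂, g⁻¹ ∈ F₂ := by
    intro g hg
    rcases hg with hg | hg
    · exact Or.inr (by rw [Set.mem_inv, inv_inv]; exact hg)
    · exact Or.inl hg
  obtain ⟨K₂, hK₂, c₂, hc₂⟩ := h2 F₂ hF₂fin
  let E : G ⧸ N → G ⧸ N → Prop := Relation.ReflTransGen (fun u v => c₂ u = c₂ v ∧ u⁻¹ * v ∈ F₂)
  have hEsymm : ∀ u v, E u v → E v u := by
    intro u v huv
    induction huv with
    | refl => exact Relation.ReflTransGen.refl
    | tail _ hab ih =>
      refine Relation.ReflTransGen.head ⟨hab.1.symm, ?_⟩ ih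
      have := hF₂inv _ hab.2
      rwa [mul_inv_rev, inv_inv] at this
  let S : Setoid (G ⧸ N) := ⟨E, ⟨fun _ => Relation.ReflTransGen.refl, fun {a b} h => hEsymm a b h,
    fun {_ _ _} h h' => Relation.ReflTransGen.trans h h'⟩⟩
  -- representatives
  let rep : G ⧸ N → G ⧸ N := fun x => (Quotient.mk S x).out
  have hrep : ∀ x, E (rep x) x := fun x => Quotient.exact (Quotient.out_eq (Quotient.mk S x))
  have hrepeq : ∀ x y, E x y → rep x = rep y := by
    intro x y hxy
    show (Quotient.mk S x).out = (Quotient.mk S y).out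
    rw [Quotient.sound (s := S) hxy]
  -- lifts
  let s : G ⧸ N → G := fun x => x.out
  have hs : ∀ x, q (s x) = x := fun x => QuotientGroup.out_eq' x
  let k : G → G ⧸ N := fun x => (rep (q x))⁻¹ * q x
  have hk : ∀ x, k x ∈ K₂ := fun x => hc₂ _ _ (hrep _)
  have hn : ∀ x : G, (s (rep (q x)))⁻¹ * x * (s (k x))⁻¹ ∈ N := by
    intro x
    rw [← QuotientGroup.eq_one_iff]
    show q ((s (rep (q x)))⁻¹ * x * (s (k x))⁻¹) = 1
    have e : q ((s (rep (q x)))⁻¹ * x * (s (k x))⁻¹) =
        (q (s (rep (q x))))⁻¹ * q x * (q (s (k x)))⁻¹ := by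
      simp only [q, QuotientGroup.mk_mul, QuotientGroup.mk_inv]
    rw [e, hs, hs]
    show (rep (q x))⁻¹ * q x * ((rep (q x))⁻¹ * q x)⁻¹ = 1
    group
  let n : G → N := fun x => ⟨_, hn x⟩
  have hxn : ∀ x, x = s (rep (q x)) * (n x : G) * s (k x) := by
    intro x
    show x = s (rep (q x)) * ((s (rep (q x)))⁻¹ * x * (s (k x))⁻¹) * s (k x)
    group
  -- steps in `N`
  set T : Set G := s '' K₂ with hT
  have hTfin : T.Finite := hK₂.image _
  set F₁ : Set N := {f | ∃ a ∈ T, ∃ b ∈ T, ∃ u ∈ F, (f : G) = a * u * b⁻¹} with hF₁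
  have hF₁fin : F₁.Finite := by
    have h3 : ((fun f : N => (f : G)) '' F₁).Finite := by
      apply (((hTfin.prod hTfin).prod hF).image
        (fun p : (G × G) × G => p.1.1 * p.2 * p.1.2⁻¹)).subset
      rintro _ ⟨f, ⟨a, ha, b, hb, u, hu, hf⟩, rfl⟩
      exact ⟨((a, b), u), ⟨⟨ha, hb⟩, hu⟩, hf.symm⟩
    exact h3.of_finite_image (Subtype.coe_injective.injOn)
  obtain ⟨K₁, hK₁, c₁, hc₁⟩ := h1 F₁ hF₁fin
  -- the colours
  have hpos : (D₁ + 1) * (D₂ + 1) - 1 + 1 = (D₁ + 1) * (D₂ + 1) :=
    Nat.sub_add_cancel (Nat.mul_pos (Nat.succ_pos _) (Nat.succ_pos _))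
  let ι : Fin (D₁ + 1) × Fin (D₂ + 1) ≃ Fin ((D₁ + 1) * (D₂ + 1) - 1 + 1) :=
    finProdFinEquiv.trans (finCongr hpos.symm)
  refine ⟨{g | ∃ a ∈ T, ∃ b ∈ T, ∃ u ∈ K₁, g = a⁻¹ * (u : G) * b}, ?_,
    fun x => ι (c₁ (n x), c₂ (q x)), ?_⟩
  · apply (((hTfin.prod hTfin).prod hK₁).image
      (fun p : (G × G) × N => p.1.1⁻¹ * (p.2 : G) * p.1.2)).subset
    rintro g ⟨a, ha, b, hb, u, hu, hg⟩
    exact ⟨((a, b), u), ⟨⟨ha, hb⟩, hu⟩, hg.symm⟩
  · intro x y hxy
    have key : rep (q x) = rep (q y) ∧ Relation.ReflTransGen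
        (fun u v => c₁ u = c₁ v ∧ u⁻¹ * v ∈ F₁) (n x) (n y) := by
      induction hxy with
      | refl => exact ⟨rfl, Relation.ReflTransGen.refl⟩
      | @tail u v _ hab ih =>
        have hcol := ι.injective hab.1
        have hc1 : c₁ (n u) = c₁ (n v) := congrArg Prod.fst hcol
        have hc2 : c₂ (q u) = c₂ (q v) := congrArg Prod.snd hcol
        have hE : E (q u) (q v) := by
          refine Relation.ReflTransGen.single ⟨hc2, Or.inl ⟨u⁻¹ * v, hab.2, ?_⟩⟩
          simp only [q, QuotientGroup.mk_mul, QuotientGroup.mk_inv]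
        have hr := hrepeq _ _ hE
        refine ⟨ih.1.trans hr, ih.2.tail ⟨hc1, ?_⟩⟩
        refine ⟨s (k u), ⟨k u, hk u, rfl⟩, s (k v), ⟨k v, hk v, rfl⟩, u⁻¹ * v, hab.2, ?_⟩
        push_cast
        show ((s (rep (q u)))⁻¹ * u * (s (k u))⁻¹)⁻¹ * ((s (rep (q v)))⁻¹ * v * (s (k v))⁻¹) = _
        rw [← hr]
        group
    refine ⟨s (k x), ⟨k x, hk x, rfl⟩, s (k y), ⟨k y, hk y, rfl⟩, (n x)⁻¹ * n y,
      hc₁ _ _ key.2, ?_⟩
    have ex := hxn x
    have ey := hxn y
    rw [← key.1] at ey
    conv_lhs => rw [ex, ey]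
    push_cast
    group

/-- Subgroups of finite index. -/
theorem asdimLE_of_fi {G : Type} [Group G] (H : Subgroup G) [H.FiniteIndex] {D : ℕ}
    (h : AsdimLE H D) : ∃ D', AsdimLE G D' := by
  have h1 : AsdimLE H.normalCore D :=
    asdimLE_of_injective (Subgroup.inclusion (Subgroup.normalCore_le H))
      (Subgroup.inclusion_injective _) h
  have : Finite (G ⧸ H.normalCore) := inferInstance
  exact ⟨_, asdimLE_ext H.normalCore h1 (asdimLE_finite (G ⧸ H.normalCore))⟩

/-- Cyclic groups. -/
theorem asdimLE_zpowers {G : Type} [Group G] (a : G) : ∃ D, AsdimLE (Subgroup.zpowers a) D := by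
  by_cases ha : IsOfFinOrder a
  · have : Finite (Subgroup.zpowers a) := finite_zpowers.2 ha
    exact ⟨0, asdimLE_finite _⟩
  · have hinj : Function.Injective (fun n : ℤ => a ^ n) :=
      injective_zpow_iff_not_isOfFinOrder.2 ha
    let φ : Multiplicative ℤ →* Subgroup.zpowers a :=
      { toFun := fun n => ⟨a ^ (Multiplicative.toAdd n), Subgroup.zpow_mem_zpowers a _⟩
        map_one' := by
          apply Subtype.ext
          show a ^ (Multiplicative.toAdd (1 : Multiplicative ℤ)) = 1
          rw [toAdd_one, zpow_zero]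
        map_mul' := by
          intro x y
          apply Subtype.ext
          show a ^ (Multiplicative.toAdd (x * y)) =
            a ^ (Multiplicative.toAdd x) * a ^ (Multiplicative.toAdd y)
          rw [toAdd_mul, zpow_add] }
    have hbij : Function.Bijective φ := by
      constructor
      · intro x y hxy
        have h1 : a ^ (Multiplicative.toAdd x) = a ^ (Multiplicative.toAdd y) :=
          congrArg Subtype.val hxy
        exact Multiplicative.toAdd.injective (hinj h1)
      · rintro ⟨_, ⟨n, rfl⟩⟩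
        exact ⟨Multiplicative.ofAdd n, rfl⟩
    let e := MulEquiv.ofBijective φ hbij
    exact ⟨1, asdimLE_of_injective e.symm.toMonoidHom e.symm.injective asdimLE_int⟩

/-- Finitely generated groups in which all elements commute. -/
theorem asdimLE_comm : ∀ (n : ℕ) (Q : Type) [Group Q], (∀ a b : Q, a * b = b * a) →
    (∃ S : Finset Q, S.card ≤ n ∧ Subgroup.closure (S : Set Q) = ⊤) → ∃ D, AsdimLE Q D := by
  classical
  intro n
  induction n with
  | zero =>
    rintro Q _ _ ⟨S, hS, htop⟩
    have hS0 : S = ∅ := Finset.card_eq_zero.1 (Nat.le_zero.1 hS)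
    subst hS0
    rw [Finset.coe_empty, Subgroup.closure_empty] at htop
    have : Subsingleton Q := Subgroup.subsingleton_iff.1 (subsingleton_of_bot_eq_top htop)
    exact ⟨0, asdimLE_finite Q⟩
  | succ n ih =>
    rintro Q _ hcomm ⟨S, hS, htop⟩
    rcases S.eq_empty_or_nonempty with rfl | ⟨a, ha⟩
    · exact ih Q hcomm ⟨∅, by simp, htop⟩
    · have hN : (Subgroup.zpowers a).Normal := ⟨fun x hx g => by
        rw [hcomm g x, mul_inv_cancel_right]; exact hx⟩
      obtain ⟨D₁, h1⟩ := asdimLE_zpowers a
      let π : Q →* Q ⧸ Subgroup.zpowers a := QuotientGroup.mk' _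
      have hsurj : Function.Surjective π := QuotientGroup.mk'_surjective _
      obtain ⟨D₂, h2⟩ := ih (Q ⧸ Subgroup.zpowers a) (by
        intro x y
        obtain ⟨x, rfl⟩ := hsurj x
        obtain ⟨y, rfl⟩ := hsurj y
        rw [← map_mul, ← map_mul, hcomm]) ⟨(S.erase a).image π, by
          refine Finset.card_image_le.trans ?_
          rw [Finset.card_erase_of_mem ha]
          omega, by
          rw [Finset.coe_image, ← MonoidHom.map_closure]
          rw [eq_top_iff]
          rintro x -
          obtain ⟨y, rfl⟩ := hsurj x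
          have hy : y ∈ Subgroup.closure (S : Set Q) := by rw [htop]; exact Subgroup.mem_top _
          induction hy using Subgroup.closure_induction with
          | mem z hz =>
            by_cases hza : z = a
            · have : π z = 1 := by
                rw [hza]
                exact (QuotientGroup.eq_one_iff a).2 (Subgroup.mem_zpowers a)
              rw [this]
              exact Subgroup.one_mem _
            · exact ⟨z, Subgroup.subset_closure (by
                rw [Finset.coe_erase]; exact ⟨hz, hza⟩), rfl⟩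
          | one => rw [map_one]; exact Subgroup.one_mem _
          | mul x y _ _ hx hy => rw [map_mul]; exact Subgroup.mul_mem _ hx hy
          | inv x _ hx => rw [map_inv]; exact Subgroup.inv_mem _ hx⟩
      exact ⟨_, asdimLE_ext _ h1 h2⟩

/-- Solvable groups all of whose subgroups are finitely generated. -/
theorem asdimLE_polycyclic {S : Type} [Group S] [hS : Group.IsSolvable S]
    (hfg : ∀ H : Subgroup S, H.FG) : ∃ D, AsdimLE S D := by
  obtain ⟨n, hn⟩ := hS.solvable
  have key : ∀ m, m ≤ n → ∃ D, AsdimLE (derivedSeries S (n - m)) D := by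
    intro m
    induction m with
    | zero =>
      intro _
      rw [Nat.sub_zero, hn]
      exact ⟨0, asdimLE_finite _⟩
    | succ m ih =>
      intro hm
      obtain ⟨D₁, h1⟩ := ih (by omega)
      set i := n - (m + 1) with hi
      have hi1 : n - m = i + 1 := by omega
      rw [hi1] at h1
      have hle : derivedSeries S (i + 1) ≤ derivedSeries S i := by
        rw [derivedSeries_succ]
        exact Subgroup.commutator_le_left _ _
      let B := (derivedSeries S (i + 1)).subgroupOf (derivedSeries S i)
      have hBn : B.Normal := inferInstance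
      have hB1 : AsdimLE B D₁ :=
        asdimLE_of_injective (Subgroup.subgroupOfEquivOfLe hle).toMonoidHom
          (Subgroup.subgroupOfEquivOfLe hle).injective h1
      have hAfg : Group.FG (derivedSeries S i) := (Group.fg_iff_subgroup_fg _).2 (hfg _)
      let π : derivedSeries S i →* (derivedSeries S i) ⧸ B := QuotientGroup.mk' _
      have hsurj : Function.Surjective π := QuotientGroup.mk'_surjective _
      have hQfg : Group.FG ((derivedSeries S i) ⧸ B) := Group.fg_of_surjective hsurj
      obtain ⟨T, hT⟩ := Group.fg_def.1 hQfg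
      obtain ⟨D₂, h2⟩ := asdimLE_comm T.card ((derivedSeries S i) ⧸ B) (by
        intro x y
        obtain ⟨x, rfl⟩ := hsurj x
        obtain ⟨y, rfl⟩ := hsurj y
        rw [← map_mul, ← map_mul]
        refine QuotientGroup.eq.2 ?_
        show ((((x * y)⁻¹ * (y * x) : derivedSeries S i)) : S) ∈ derivedSeries S (i + 1)
        rw [derivedSeries_succ]
        have e : ((((x * y)⁻¹ * (y * x) : derivedSeries S i)) : S) =
            ⁅((y : S))⁻¹, ((x : S))⁻¹⁆ := by
          rw [commutatorElement_def]
          push_cast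
          group
        rw [e]
        exact Subgroup.commutator_mem_commutator (inv_mem y.2) (inv_mem x.2)) ⟨T, le_rfl, hT⟩
      exact ⟨_, asdimLE_ext B hB1 h2⟩
  obtain ⟨D, hD⟩ := key n le_rfl
  rw [Nat.sub_self] at hD
  refine ⟨D, asdimLE_of_injective (G := derivedSeries S 0)
    { toFun := fun x => ⟨x, by rw [derivedSeries_zero]; exact Subgroup.mem_top x⟩
      map_one' := rfl
      map_mul' := fun _ _ => rfl } ?_ hD⟩
  intro x y hxy
  exact congrArg Subtype.val hxy

/-- Virtually polycyclic groups have finite asymptotic dimension. -/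
theorem asdimLE_virt {G : Type} [Group G] (H : Subgroup G) [H.FiniteIndex] [Group.IsSolvable H]
    (hfg : ∀ K : Subgroup G, K.FG) : ∃ D, AsdimLE G D := by
  have h1 : ∀ K : Subgroup H, K.FG := by
    intro K
    have h2 : (K.map H.subtype).FG := hfg _
    have h3 : Group.FG (K.map H.subtype) := (Group.fg_iff_subgroup_fg _).2 h2
    have h4 : Group.FG K := Group.fg_of_surjective
      (f := (K.equivMapOfInjective H.subtype H.subtype_injective).symm.toMonoidHom)
      (K.equivMapOfInjective H.subtype H.subtype_injective).symm.surjective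
    exact (Group.fg_iff_subgroup_fg _).1 h4
  obtain ⟨D, hD⟩ := asdimLE_polycyclic h1
  exact asdimLE_of_fi H hD

end Pool.Agent.VNP
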