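import Mathlib
/-!
# Finite asymptotic dimension of a group
-/
namespace Pool.Agent.VNP

/-- The asymptotic dimension of `G` is at most `D`: for every finite set `F` the group is a union
of `D + 1` classes whose `F`-components are uniformly bounded. -/
def AsdimLE (G : Type) [Group G] (D : ℕ) : Prop :=
  ∀ F : Set G, F.Finite → ∃ K : Set G, K.Finite ∧ ∃ c : G → Fin (D + 1), ∀ x y : G,
    Relation.ReflTransGen (fun u v => c u = c v ∧ u⁻¹ * v ∈ F) x y → x⁻¹ * y ∈ K

end Pool.Agent.VNP
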