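import Pool.Agent.VNP.PLab
import Pool.Agent.VNP.AsDef
/-!
# Antipodal labels for groups of finite asymptotic dimension
-/
namespace Pool.Agent.VNP

open Classical in
/-- The combinatorial construction of the labels. -/
theorem exists_labels {G Q : Type} (D : ℕ) (c : G → Fin (D + 1)) (π : G → Q)
    (near : ℕ → G → G → Prop) (adj : G → G → Prop)
    (h0 : ∀ x, near 0 x x) (h1 : ∀ j x u, near j x u → near (j + 1) x u)
    (hu : ∀ j x u v, j ≤ 2 * D + 1 → near j x u → near j x v → c u = c v → π u = π v)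
    (hc : ∀ u v, π u = π v → c u = c v)
    (ha : ∀ j x x' u, adj x x' → near j x u → near (j + 1) x' u)
    (hb : ∀ j x x' u, adj x x' → near j x' u → near (j + 1) x u)
    (Far : G × G → Prop)
    (hF : ∀ p, Far p → ∀ j, j ≤ 2 * D + 1 → ∀ u v, near j p.1 u → near j p.2 v → π u ≠ π v) :
    ∃ lam : G × G → ℤ, ∀ p, Far p → lam p ≠ 0 ∧ |lam p| ≤ (2 * D + 1 : ℕ) ∧
      lam p.swap = - lam p ∧
      ∀ q, Far q → adj p.1 q.1 → adj p.2 q.2 → lam q ≠ - lam p := by
  let A : ℕ → G → Finset (Fin (D + 1)) := fun j x =>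
    Finset.univ.filter fun i => ∃ u, c u = i ∧ near j x u
  let σ : ℕ → G → Set Q := fun j x => {q | ∃ u, near j x u ∧ π u = q}
  have memA : ∀ j x i, i ∈ A j x ↔ ∃ u, c u = i ∧ near j x u := by
    intro j x i
    simp only [A, Finset.mem_filter, Finset.mem_univ, true_and]
  have memσ : ∀ j x q, q ∈ σ j x ↔ ∃ u, near j x u ∧ π u = q := fun j x q => Iff.rfl
  have hmono : ∀ j k x u, j ≤ k → near j x u → near k x u := by
    intro j k x u hjk h
    induction hjk with
    | refl => exact h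
    | step _ ih => exact h1 _ x u ih
  -- inclusions
  have hsub : ∀ j k x x', σ j x ⊆ σ k x' → A j x ⊆ A k x' := by
    intro j k x x' h i hi
    obtain ⟨u, hui, hn⟩ := (memA j x i).1 hi
    obtain ⟨v, hv, hvu⟩ := h ⟨u, hn, rfl⟩
    exact (memA k x' i).2 ⟨v, (hc v u hvu).trans hui, hv⟩
  have heq : ∀ j k x x', k ≤ 2 * D + 1 → σ j x ⊆ σ k x' → (A j x).card = (A k x').card →
      σ j x = σ k x' := by
    intro j k x x' hk h hcard
    refine Set.Subset.antisymm h ?_
    rintro q ⟨u, hn, rfl⟩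
    have hA : A j x = A k x' := Finset.eq_of_subset_of_card_le (hsub _ _ _ _ h) hcard.ge
    have hi : c u ∈ A j x := by rw [hA]; exact (memA _ _ _).2 ⟨u, rfl, hn⟩
    obtain ⟨v, hv, hvn⟩ := (memA _ _ _).1 hi
    obtain ⟨w, hw, hwv⟩ := h ⟨v, hvn, rfl⟩
    have : π u = π w := hu k x' u w hk hn hw ((hv.symm.trans (hc w v hwv).symm))
    exact ⟨v, hvn, by rw [this, hwv]⟩
  let n : ℕ → G × G → ℕ := fun j p => (A j p.1).card + (A j p.2).card
  have hσm : ∀ j k x, j ≤ k → σ j x ⊆ σ k x := by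
    rintro j k x hjk q ⟨u, hn, rfl⟩
    exact ⟨u, hmono j k x u hjk hn, rfl⟩
  have hAm : ∀ j k x, j ≤ k → (A j x).card ≤ (A k x).card := fun j k x hjk =>
    Finset.card_le_card (hsub _ _ _ _ (hσm j k x hjk))
  have hAle : ∀ j x, (A j x).card ≤ D + 1 := by
    intro j x
    calc (A j x).card ≤ (Finset.univ : Finset (Fin (D + 1))).card :=
          Finset.card_le_card (Finset.subset_univ _)
      _ = D + 1 := by rw [Finset.card_univ, Fintype.card_fin]
  have hApos : ∀ j x, 1 ≤ (A j x).card := by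
    intro j x
    refine Finset.card_pos.2 ⟨c x, (memA _ _ _).2 ⟨x, rfl, hmono 0 j x x (Nat.zero_le _) (h0 x)⟩⟩
  have hJex : ∀ p, ∃ j, j ≤ 2 * D ∧ n j p = n (j + 1) p := by
    intro p
    by_contra hcon
    push Not at hcon
    have hge : ∀ j, j ≤ 2 * D + 1 → j + 2 ≤ n j p := by
      intro j
      induction j with
      | zero =>
        intro _
        have e1 := hApos 0 p.1
        have e2 := hApos 0 p.2
        show 0 + 2 ≤ (A 0 p.1).card + (A 0 p.2).card
        omega
      | succ j ih =>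
        intro hj
        have h2 := ih (by omega)
        have h3 : n j p ≤ n (j + 1) p :=
          Nat.add_le_add (hAm _ _ _ (Nat.le_succ j)) (hAm _ _ _ (Nat.le_succ j))
        have h4 := hcon j (by omega)
        omega
    have h2 := hge (2 * D + 1) le_rfl
    have h3 : n (2 * D + 1) p ≤ (D + 1) + (D + 1) := Nat.add_le_add (hAle _ _) (hAle _ _)
    omega
  let J : G × G → ℕ := fun p => sInf {j | j ≤ 2 * D ∧ n j p = n (j + 1) p}
  have hJ : ∀ p, J p ≤ 2 * D ∧ n (J p) p = n (J p + 1) p := fun p => Nat.sInf_mem (hJex p)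
  have hJσ : ∀ p, σ (J p) p.1 = σ (J p + 1) p.1 ∧ σ (J p) p.2 = σ (J p + 1) p.2 := by
    intro p
    obtain ⟨h2, h3⟩ := hJ p
    have h4 := hAm (J p) (J p + 1) p.1 (Nat.le_succ _)
    have h5 := hAm (J p) (J p + 1) p.2 (Nat.le_succ _)
    have h6 : (A (J p) p.1).card + (A (J p) p.2).card =
      (A (J p + 1) p.1).card + (A (J p + 1) p.2).card := h3
    exact ⟨heq _ _ _ _ (by omega) (hσm _ _ _ (Nat.le_succ _)) (by omega),
      heq _ _ _ _ (by omega) (hσm _ _ _ (Nat.le_succ _)) (by omega)⟩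
  have hnswap : ∀ j p, n j (Prod.swap p) = n j p := fun j p => Nat.add_comm _ _
  have hJswap : ∀ p, J (Prod.swap p) = J p := by
    intro p
    show sInf _ = sInf _
    congr 1
    ext j
    show (j ≤ 2 * D ∧ n j (Prod.swap p) = n (j + 1) (Prod.swap p)) ↔ _
    rw [hnswap, hnswap]
    exact Iff.rfl
  let sgn : Set Q → Set Q → ℤ := fun s t => if WellOrderingRel s t then 1 else -1
  have hsgn1 : ∀ s t, sgn s t = 1 ∨ sgn s t = -1 := by
    intro s t
    show (if _ then (1 : ℤ) else -1) = 1 ∨ (if _ then (1 : ℤ) else -1) = -1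
    split_ifs
    · exact Or.inl rfl
    · exact Or.inr rfl
  have hsgn2 : ∀ s t, s ≠ t → sgn t s = - sgn s t := by
    intro s t hst
    show (if WellOrderingRel t s then (1 : ℤ) else -1) = -(if WellOrderingRel s t then (1 : ℤ) else -1)
    by_cases h : WellOrderingRel s t
    · have h' : ¬ WellOrderingRel t s := fun h' => asymm h h'
      rw [if_pos h, if_neg h']
    · have h' : WellOrderingRel t s := by
        rcases trichotomous_of WellOrderingRel s t with h2 | h2 | h2
        · exact absurd h2 h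
        · exact absurd h2 hst
        · exact h2
      rw [if_neg h, if_pos h']
      ring
  refine ⟨fun p => sgn (σ (J p) p.1) (σ (J p) p.2) * ((n (J p) p : ℤ) - 1), ?_⟩
  intro p hp
  have hn2 : 2 ≤ n (J p) p := Nat.add_le_add (hApos _ _) (hApos _ _)
  have hn3 : n (J p) p ≤ 2 * D + 2 := by
    have : n (J p) p ≤ (D + 1) + (D + 1) := Nat.add_le_add (hAle _ _) (hAle _ _)
    omega
  have hne : σ (J p) p.1 ≠ σ (J p) p.2 := by
    intro h
    have h2 : π p.1 ∈ σ (J p) p.1 := ⟨p.1, hmono 0 _ _ _ (Nat.zero_le _) (h0 _), rfl⟩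
    rw [h] at h2
    obtain ⟨v, hv, hv'⟩ := h2
    exact hF p hp (J p) (by have := (hJ p).1; omega) p.1 v
      (hmono 0 _ _ _ (Nat.zero_le _) (h0 _)) hv hv'.symm
  have hnz : sgn (σ (J p) p.1) (σ (J p) p.2) * ((n (J p) p : ℤ) - 1) ≠ 0 := by
    refine mul_ne_zero ?_ ?_
    · rcases hsgn1 (σ (J p) p.1) (σ (J p) p.2) with h | h <;> rw [h] <;> norm_num
    · have : (2 : ℤ) ≤ n (J p) p := by exact_mod_cast hn2
      omega
  refine ⟨hnz, ?_, ?_, ?_⟩
  · rw [abs_mul]
    have h2 : |sgn (σ (J p) p.1) (σ (J p) p.2)| = 1 := by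
      rcases hsgn1 (σ (J p) p.1) (σ (J p) p.2) with h | h <;> rw [h] <;> norm_num
    rw [h2, one_mul, abs_of_nonneg (by have : (2 : ℤ) ≤ n (J p) p := by exact_mod_cast hn2
                                       omega)]
    push_cast
    have : (n (J p) p : ℤ) ≤ 2 * D + 2 := by exact_mod_cast hn3
    linarith
  · show sgn (σ (J (Prod.swap p)) p.2) (σ (J (Prod.swap p)) p.1) *
      ((n (J (Prod.swap p)) (Prod.swap p) : ℤ) - 1) = _
    rw [hJswap, hnswap, hsgn2 _ _ hne, neg_mul]
  · intro q hq ha1 ha2 hcon0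
    have hcon : sgn (σ (J q) q.1) (σ (J q) q.2) * ((n (J q) q : ℤ) - 1) =
        -(sgn (σ (J p) p.1) (σ (J p) p.2) * ((n (J p) p : ℤ) - 1)) := hcon0
    -- equal absolute values
    have habs : n (J q) q = n (J p) p := by
      have h2 : |sgn (σ (J q) q.1) (σ (J q) q.2) * ((n (J q) q : ℤ) - 1)| =
          |sgn (σ (J p) p.1) (σ (J p) p.2) * ((n (J p) p : ℤ) - 1)| := by
        rw [hcon, abs_neg]
      have hn2q : 2 ≤ n (J q) q := Nat.add_le_add (hApos _ _) (hApos _ _)
      rw [abs_mul, abs_mul] at h2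
      have h3 : |sgn (σ (J p) p.1) (σ (J p) p.2)| = 1 := by
        rcases hsgn1 (σ (J p) p.1) (σ (J p) p.2) with h | h <;> rw [h] <;> norm_num
      have h4 : |sgn (σ (J q) q.1) (σ (J q) q.2)| = 1 := by
        rcases hsgn1 (σ (J q) q.1) (σ (J q) q.2) with h | h <;> rw [h] <;> norm_num
      rw [h3, h4, one_mul, one_mul, abs_of_nonneg (by omega), abs_of_nonneg (by omega)] at h2
      omega
    have hcomp : σ (J q) q.1 = σ (J p) p.1 ∧ σ (J q) q.2 = σ (J p) p.2 := by
      rcases Nat.lt_or_ge (J q) (J p) with hlt | hge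
      · -- the sets of `q` are contained in those of `p`
        have hs : ∀ x x', adj x x' → σ (J q) x' ⊆ σ (J p) x := by
          rintro x x' hadj t ⟨u, hn, rfl⟩
          exact ⟨u, hmono _ _ _ _ hlt (hb _ _ _ _ hadj hn), rfl⟩
        have s1 := hs _ _ ha1
        have s2 := hs _ _ ha2
        have c1 := Finset.card_le_card (hsub _ _ _ _ s1)
        have c2 := Finset.card_le_card (hsub _ _ _ _ s2)
        have h6 : (A (J q) q.1).card + (A (J q) q.2).card =
          (A (J p) p.1).card + (A (J p) p.2).card := habs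
        have hle := (hJ p).1
        exact ⟨heq _ _ _ _ (by omega) s1 (by omega), heq _ _ _ _ (by omega) s2 (by omega)⟩
      · rcases hge.lt_or_eq with hlt | heq'
        · have hs : ∀ x x', adj x x' → σ (J p) x ⊆ σ (J q) x' := by
            rintro x x' hadj t ⟨u, hn, rfl⟩
            exact ⟨u, hmono _ _ _ _ hlt (ha _ _ _ _ hadj hn), rfl⟩
          have s1 := hs _ _ ha1
          have s2 := hs _ _ ha2
          have c1 := Finset.card_le_card (hsub _ _ _ _ s1)
          have c2 := Finset.card_le_card (hsub _ _ _ _ s2)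
          have h6 : (A (J q) q.1).card + (A (J q) q.2).card =
            (A (J p) p.1).card + (A (J p) p.2).card := habs
          have hle := (hJ q).1
          exact ⟨(heq _ _ _ _ (by omega) s1 (by omega)).symm,
            (heq _ _ _ _ (by omega) s2 (by omega)).symm⟩
        · -- equal thresholds
          have hq1 := (hJσ q).1
          have hq2 := (hJσ q).2
          have hp1 := (hJσ p).1
          have hp2 := (hJσ p).2
          rw [← heq'] at hq1 hq2 ⊢
          constructor
          · refine Set.Subset.antisymm ?_ ?_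
            · rw [hp1]
              rintro t ⟨u, hn, rfl⟩
              exact ⟨u, hb _ _ _ _ ha1 hn, rfl⟩
            · rw [hq1]
              rintro t ⟨u, hn, rfl⟩
              exact ⟨u, ha _ _ _ _ ha1 hn, rfl⟩
          · refine Set.Subset.antisymm ?_ ?_
            · rw [hp2]
              rintro t ⟨u, hn, rfl⟩
              exact ⟨u, hb _ _ _ _ ha2 hn, rfl⟩
            · rw [hq2]
              rintro t ⟨u, hn, rfl⟩
              exact ⟨u, ha _ _ _ _ ha2 hn, rfl⟩
    have hcon' : sgn (σ (J q) q.1) (σ (J q) q.2) * ((n (J q) q : ℤ) - 1) =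
        -(sgn (σ (J p) p.1) (σ (J p) p.2) * ((n (J p) p : ℤ) - 1)) := hcon
    rw [hcomp.1, hcomp.2, habs] at hcon'
    apply hnz
    linarith

open Pointwise in
/-- Groups of finite asymptotic dimension have antipodal labels for far pairs. -/
theorem plab_asdim {G : Type} [Group G] {D : ℕ} (h : AsdimLE G D) : PLab G (2 * D + 1) := by
  classical
  intro R hR
  -- symmetric balls
  set T : Set G := insert 1 (R ∪ R⁻¹) with hT
  have hTfin : T.Finite := (hR.union hR.inv).insert 1
  have hT1 : (1 : G) ∈ T := Set.mem_insert _ _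
  have hTinv : ∀ g, g ∈ T → g⁻¹ ∈ T := by
    intro g hg
    rcases hg with rfl | hg | hg
    · rw [inv_one]; exact hT1
    · exact Or.inr (Or.inr (by rw [Set.mem_inv, inv_inv]; exact hg))
    · exact Or.inr (Or.inl hg)
  have hTR : R ⊆ T := fun g hg => Or.inr (Or.inl hg)
  let B : ℕ → Set G := fun m => T ^ m
  have hBmono : ∀ m n g, m ≤ n → g ∈ B m → g ∈ B n := fun m n g hmn hg =>
    Set.pow_subset_pow_right hT1 hmn hg
  have hB1 : ∀ m, (1 : G) ∈ B m := fun m => Set.one_mem_pow hT1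
  have hBinv : ∀ m g, g ∈ B m → g⁻¹ ∈ B m := by
    intro m g hg
    have hTT : T⁻¹ = T := by
      ext x
      rw [Set.mem_inv]
      exact ⟨fun hx => by have := hTinv _ hx; rwa [inv_inv] at this, fun hx => hTinv _ hx⟩
    have h1 : (T ^ m)⁻¹ = T ^ m := by rw [← inv_pow, hTT]
    show g⁻¹ ∈ T ^ m
    rw [← h1, Set.inv_mem_inv]
    exact hg
  have hBmul : ∀ m n g g', g ∈ B m → g' ∈ B n → g * g' ∈ B (m + n) := by
    intro m n g g' hg hg'
    show g * g' ∈ T ^ (m + n)
    rw [pow_add]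
    exact Set.mul_mem_mul hg hg'
  have hBfin : ∀ m, (B m).Finite := by
    intro m
    induction m with
    | zero => show (T ^ 0).Finite; rw [pow_zero]; exact Set.finite_one
    | succ m ih => show (T ^ (m + 1)).Finite; rw [pow_succ]; exact ih.mul hTfin
  have hB1T : ∀ g, g ∈ T → g ∈ B 1 := fun g hg => by show g ∈ T ^ 1; rwa [pow_one]
  set m : ℕ := 2 * D + 1 with hm
  obtain ⟨K, hK, c, hc⟩ := h (B (m + m)) (hBfin _)
  let E : G → G → Prop := Relation.ReflTransGen (fun u v => c u = c v ∧ u⁻¹ * v ∈ B (m + m))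
  have hEsymm : ∀ u v, E u v → E v u := by
    intro u v huv
    induction huv with
    | refl => exact Relation.ReflTransGen.refl
    | tail _ hab ih =>
      refine Relation.ReflTransGen.head ⟨hab.1.symm, ?_⟩ ih
      have := hBinv _ _ hab.2
      rwa [mul_inv_rev, inv_inv] at this
  have hEc : ∀ u v, E u v → c u = c v := by
    intro u v huv
    induction huv with
    | refl => rfl
    | tail _ hab ih => exact ih.trans hab.1
  let S : Setoid G := ⟨E, ⟨fun _ => Relation.ReflTransGen.refl, fun {a b} h => hEsymm a b h,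
    fun {_ _ _} h h' => Relation.ReflTransGen.trans h h'⟩⟩
  let near : ℕ → G → G → Prop := fun j x u => x⁻¹ * u ∈ B j
  let adj : G → G → Prop := fun x x' => x⁻¹ * x' ∈ T
  have hadj : ∀ j x x' u, adj x x' → near j x u → near (j + 1) x' u := by
    intro j x x' u h1 h2
    show x'⁻¹ * u ∈ B (j + 1)
    have e : x'⁻¹ * u = (x⁻¹ * x')⁻¹ * (x⁻¹ * u) := by group
    rw [e, Nat.add_comm]
    exact hBmul _ _ _ _ (hBinv _ _ (hB1T _ h1)) h2
  -- the far pairs
  set K1 : Set G := (B m * K) * B m with hK1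
  have hK1fin : K1.Finite := ((hBfin m).mul hK).mul (hBfin m)
  set K2 : Set G := K1 ∪ K1⁻¹ with hK2
  obtain ⟨lam, hlam⟩ := exists_labels D c (Quotient.mk S) near adj
    (fun x => by show x⁻¹ * x ∈ _; rw [inv_mul_cancel]; exact hB1 _)
    (fun j x u hn => hBmono _ _ _ (Nat.le_succ j) hn)
    (by
      intro j x u v hj hu hv hcuv
      apply Quotient.sound
      refine Relation.ReflTransGen.single ⟨hcuv, ?_⟩
      have e : u⁻¹ * v = (x⁻¹ * u)⁻¹ * (x⁻¹ * v) := by group
      rw [e]
      exact hBmul _ _ _ _ (hBinv _ _ (hBmono _ _ _ hj hu)) (hBmono _ _ _ hj hv))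
    (fun u v huv => hEc u v (Quotient.exact huv))
    hadj
    (by
      intro j x x' u h1 h2
      refine hadj j x' x u ?_ h2
      have := hTinv _ h1
      rwa [mul_inv_rev, inv_inv] at this)
    (fun p => p.1⁻¹ * p.2 ∉ K2)
    (by
      intro p hp j hj u v hu hv huv
      apply hp
      left
      have h1 : u⁻¹ * v ∈ K := hc u v (Quotient.exact huv)
      have e : p.1⁻¹ * p.2 = (p.1⁻¹ * u) * (u⁻¹ * v) * (p.2⁻¹ * v)⁻¹ := by group
      rw [e]
      exact Set.mul_mem_mul (Set.mul_mem_mul (hBmono _ _ _ hj hu) h1)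
        (hBinv _ _ (hBmono _ _ _ hj hv)))
  have hsymm : ∀ x y : G, x⁻¹ * y ∉ K2 → y⁻¹ * x ∉ K2 := by
    intro x y hxy hyx
    apply hxy
    have e : x⁻¹ * y = (y⁻¹ * x)⁻¹ := by group
    rw [e]
    rcases hyx with h1 | h1
    · exact Or.inr (Set.inv_mem_inv.2 h1)
    · exact Or.inl h1
  refine ⟨K2, lam, hK1fin.union hK1fin.inv, hsymm, ?_, ?_, ?_⟩
  · intro x y hxy
    obtain ⟨h1, h2, _, _⟩ := hlam (x, y) hxy
    exact ⟨Int.one_le_abs h1, h2⟩
  · intro x y hxy
    exact (hlam (x, y) hxy).2.2.1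
  · intro x y x' y' hx hy hxy hxy'
    exact (hlam (x, y) hxy).2.2.2 (x', y') hxy' (hTR hx) (hTR hy)

end Pool.Agent.VNP
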