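import Pool.Agent.VNP.AsExt
/-!
# Finite asymptotic dimension: free groups
-/
namespace Pool.Agent.VNP

section Words
variable {X : Type}

open Classical in
theorem free_suf_step (a : X × Bool) (y : FreeGroup X) (p : List (X × Bool))
    (hp : p <:+ y.toWord) (hl : p.length < y.toWord.length) :
    p <:+ (FreeGroup.mk [a] * y).toWord := by
  have h1 : (FreeGroup.mk [a] * y).toWord = FreeGroup.reduce (a :: y.toWord) := by
    conv_lhs => rw [← FreeGroup.mk_toWord (x := y)]
    rw [FreeGroup.mul_mk, FreeGroup.toWord_mk]
    rfl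
  rw [h1, FreeGroup.reduce.cons, FreeGroup.reduce_toWord]
  cases hy : y.toWord with
  | nil =>
    rw [hy] at hl
    simp at hl
  | cons hd tl =>
    rw [hy] at hp hl
    simp only
    split_ifs with h2
    · rcases List.suffix_cons_iff.1 hp with h3 | h3
      · rw [h3] at hl
        exact absurd hl (lt_irrefl _)
      · exact h3
    · exact hp.trans (List.suffix_cons _ _)

open Classical in
theorem free_norm_lower (L : List (X × Bool)) (y : FreeGroup X) :
    y.norm ≤ L.length + (FreeGroup.mk L * y).norm := by
  have h1 : y = (FreeGroup.mk L)⁻¹ * (FreeGroup.mk L * y) := by group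
  have h2 : ((FreeGroup.mk L)⁻¹).norm ≤ L.length := by
    rw [FreeGroup.norm_inv_eq]
    exact FreeGroup.norm_mk_le
  calc y.norm = ((FreeGroup.mk L)⁻¹ * (FreeGroup.mk L * y)).norm := by rw [← h1]
    _ ≤ ((FreeGroup.mk L)⁻¹).norm + (FreeGroup.mk L * y).norm := FreeGroup.norm_mul_le _ _
    _ ≤ _ := by omega

open Classical in
theorem free_suf_mul (L : List (X × Bool)) (y : FreeGroup X) (p : List (X × Bool))
    (hp : p <:+ y.toWord) (hl : p.length + L.length ≤ y.toWord.length) :
    p <:+ (FreeGroup.mk L * y).toWord := by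
  induction L with
  | nil =>
    have h1 : FreeGroup.mk ([] : List (X × Bool)) * y = y := by
      rw [← FreeGroup.one_eq_mk, one_mul]
    rw [h1]
    exact hp
  | cons a L ih =>
    rw [List.length_cons] at hl
    have h1 : FreeGroup.mk (a :: L) * y = FreeGroup.mk [a] * (FreeGroup.mk L * y) := by
      rw [← mul_assoc, FreeGroup.mul_mk]
      rfl
    rw [h1]
    refine free_suf_step a _ p (ih (by omega)) ?_
    have h2 := free_norm_lower L y
    unfold FreeGroup.norm at h2
    omega

end Words

/-- Free groups of finite rank have asymptotic dimension at most one. -/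
theorem asdimLE_free (X : Type) [Finite X] : AsdimLE (FreeGroup X) 1 := by
  classical
  intro F hF
  obtain ⟨R, hR⟩ : ∃ R : ℕ, ∀ f ∈ F, f.norm ≤ R := by
    obtain ⟨R, hR⟩ := (hF.image FreeGroup.norm).bddAbove
    exact ⟨R, fun f hf => hR ⟨f, hf, rfl⟩⟩
  set M := R + 1 with hM
  have hM0 : 0 < M := by omega
  let k : FreeGroup X → ℕ := fun x => x.norm / M
  have hball : ∀ n : ℕ, {g : FreeGroup X | g.norm ≤ n}.Finite := by
    intro n
    have h1 : ({l : List (X × Bool) | l.length ≤ n}).Finite := List.finite_length_le (X × Bool) n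
    exact h1.preimage FreeGroup.toWord_injective.injOn
  refine ⟨{g | g.norm ≤ 4 * M}, hball _, fun x => if k x % 2 = 0 then 0 else 1, ?_⟩
  intro x y hxy
  -- a suffix of the inverse of `x`
  have hnx : (k x - 1) * M ≤ x⁻¹.toWord.length := by
    have h1 : x⁻¹.toWord.length = x.norm := by
      have := FreeGroup.norm_inv_eq (x := x)
      exact this
    rw [h1]
    have h2 : k x * M ≤ x.norm := Nat.div_mul_le_self _ _
    exact (Nat.mul_le_mul_right _ (Nat.sub_le _ _)).trans h2
  set p : List (X × Bool) := x⁻¹.toWord.drop (x⁻¹.toWord.length - (k x - 1) * M) with hp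
  have hpl : p.length = (k x - 1) * M := by
    rw [hp, List.length_drop]
    omega
  have key : k y = k x ∧ p <:+ y⁻¹.toWord := by
    induction hxy with
    | refl => exact ⟨rfl, List.drop_suffix _ _⟩
    | @tail u v _ hab ih =>
      obtain ⟨h1, h2⟩ := ih
      have h3 : (u⁻¹ * v).norm ≤ R := hR _ hab.2
      -- the norm changes by less than `M`
      have h4 : v.norm ≤ u.norm + R := by
        have e : v = u * (u⁻¹ * v) := by group
        have := FreeGroup.norm_mul_le u (u⁻¹ * v)
        rw [← e] at this
        omega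
      have h5 : u.norm ≤ v.norm + R := by
        have e : u = v * (u⁻¹ * v)⁻¹ := by group
        have := FreeGroup.norm_mul_le v (u⁻¹ * v)⁻¹
        rw [← e, FreeGroup.norm_inv_eq] at this
        omega
      have h6 : k v ≤ k u + 1 := by
        show v.norm / M ≤ u.norm / M + 1
        have : v.norm / M ≤ (u.norm + M) / M := Nat.div_le_div_right (by omega)
        rwa [Nat.add_div_right _ hM0] at this
      have h7 : k u ≤ k v + 1 := by
        show u.norm / M ≤ v.norm / M + 1
        have : u.norm / M ≤ (v.norm + M) / M := Nat.div_le_div_right (by omega)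
        rwa [Nat.add_div_right _ hM0] at this
      have h8 : k v = k u := by
        have h9 : (if k u % 2 = 0 then (0 : Fin 2) else 1) = if k v % 2 = 0 then 0 else 1 := hab.1
        rcases Nat.mod_two_eq_zero_or_one (k u) with h10 | h10 <;>
          rcases Nat.mod_two_eq_zero_or_one (k v) with h11 | h11 <;>
          simp [h10, h11] at h9 <;> omega
      refine ⟨h8.trans h1, ?_⟩
      rcases Nat.eq_zero_or_pos (k x) with h9 | h9
      · have h10 : p = [] := by
          apply List.eq_nil_of_length_eq_zero
          rw [hpl, h9]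
          simp
        rw [h10]
        exact List.nil_suffix
      · have e : v⁻¹ = FreeGroup.mk ((u⁻¹ * v)⁻¹.toWord) * u⁻¹ := by
          rw [FreeGroup.mk_toWord]
          group
        rw [e]
        apply free_suf_mul _ _ _ h2
        have h10 : ((u⁻¹ * v)⁻¹.toWord).length ≤ R := by
          have := FreeGroup.norm_inv_eq (x := u⁻¹ * v)
          unfold FreeGroup.norm at this h3
          omega
        have h11 : u⁻¹.toWord.length = u.norm := FreeGroup.norm_inv_eq (x := u)
        have h12 : k u * M ≤ u.norm := Nat.div_mul_le_self _ _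
        rw [hpl, h11]
        rw [h1] at h12
        have h13 : (k x - 1) * M + M = k x * M := by
          obtain ⟨j, hj⟩ : ∃ j, k x = j + 1 := ⟨k x - 1, by omega⟩
          rw [hj]
          simp only [Nat.add_sub_cancel]
          ring
        omega
  obtain ⟨h1, t, ht⟩ := key
  obtain ⟨s, hs⟩ : p <:+ x⁻¹.toWord := List.drop_suffix _ _
  have ex : x⁻¹ = FreeGroup.mk s * FreeGroup.mk p := by
    rw [FreeGroup.mul_mk, hs, FreeGroup.mk_toWord]
  have ey : y⁻¹ = FreeGroup.mk t * FreeGroup.mk p := by
    rw [FreeGroup.mul_mk, ht, FreeGroup.mk_toWord]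
  have e : x⁻¹ * y = FreeGroup.mk s * (FreeGroup.mk t)⁻¹ := by
    have : y = (y⁻¹)⁻¹ := (inv_inv y).symm
    rw [this, ex, ey]
    group
  show (x⁻¹ * y).norm ≤ 4 * M
  rw [e]
  have hb : ∀ z : FreeGroup X, z.norm < k z * M + M := by
    intro z
    have h2 := Nat.mod_add_div z.norm M
    have h3 := Nat.mod_lt z.norm hM0
    have h4 : k z * M = M * (z.norm / M) := Nat.mul_comm _ _
    omega
  have hk : k x * M ≤ (k x - 1) * M + M := by
    have h2 : k x ≤ (k x - 1) + 1 := by omega
    calc k x * M ≤ ((k x - 1) + 1) * M := Nat.mul_le_mul_right _ h2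
      _ = (k x - 1) * M + M := by ring
  have hls : s.length ≤ 2 * M := by
    have h2 : s.length + p.length = x.norm := by
      rw [← List.length_append, hs]
      exact FreeGroup.norm_inv_eq (x := x)
    have h3 := hb x
    omega
  have hlt : t.length ≤ 2 * M := by
    have h2 : t.length + p.length = y.norm := by
      rw [← List.length_append, ht]
      exact FreeGroup.norm_inv_eq (x := y)
    have h3 := hb y
    rw [h1] at h3
    omega
  have h2 := FreeGroup.norm_mul_le (FreeGroup.mk s) (FreeGroup.mk t)⁻¹
  rw [FreeGroup.norm_inv_eq] at h2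
  have h3 : (FreeGroup.mk s).norm ≤ s.length := FreeGroup.norm_mk_le
  have h4 : (FreeGroup.mk t).norm ≤ t.length := FreeGroup.norm_mk_le
  omega

/-- Virtually free groups have finite asymptotic dimension. -/
theorem asdimLE_vfree {Q X : Type} [Group Q] [Finite X] (F : Subgroup Q) [F.FiniteIndex]
    (e : F ≃* FreeGroup X) : ∃ D, AsdimLE Q D :=
  asdimLE_of_fi F (asdimLE_of_injective e.toMonoidHom e.injective (asdimLE_free X))

end Pool.Agent.VNP
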