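import Pool.Agent.VNP.Chain

/-!
# The combinatorial Borsuk-Ulam argument of Ky Fan, mod 2, on tuples
-/

namespace Pool.Agent.VNP

/-- Order of the labels: by absolute value, ties by value. -/
def lle (a b : ℤ) : Prop := |a| < |b| ∨ (|a| = |b| ∧ a ≤ b)

instance : DecidableRel lle := fun a b => by unfold lle; infer_instance

instance : IsTrans ℤ lle := ⟨fun a b c h1 h2 => by
  unfold lle at *
  rcases h1 with h1 | ⟨h1, h1'⟩ <;> rcases h2 with h2 | ⟨h2, h2'⟩
  · exact Or.inl (lt_trans h1 h2)
  · exact Or.inl (by omega)
  · exact Or.inl (by omega)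
  · exact Or.inr ⟨by omega, by omega⟩⟩

instance : Std.Antisymm lle := ⟨fun a b h1 h2 => by
  unfold lle at *
  omega⟩

instance : Std.Total lle := ⟨fun a b => by
  unfold lle
  rcases lt_trichotomy |a| |b| with h | h | h
  · exact Or.inl (Or.inl h)
  · rcases le_total a b with h' | h'
    · exact Or.inl (Or.inr ⟨h, h'⟩)
    · exact Or.inr (Or.inr ⟨h.symm, h'⟩)
  · exact Or.inr (Or.inl h)⟩

/-- `altA s l = 1` iff the labels in `l` have strictly increasing absolute values and alternating
signs, the first one being positive iff `s` is true. -/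
def altA : Bool → List ℤ → ZMod 2
  | _, [] => 1
  | s, a :: l => if decide (0 < a) = s ∧ (∀ b ∈ l, |a| < |b|) then altA (!s) l else 0

theorem altA_nil (s : Bool) : altA s [] = 1 := rfl

theorem altA_cons (s : Bool) (a : ℤ) (l : List ℤ) :
    altA s (a :: l) = if decide (0 < a) = s ∧ (∀ b ∈ l, |a| < |b|) then altA (!s) l else 0 := rfl

theorem z2_add_self (x : ZMod 2) : x + x = 0 := by
  revert x; decide

theorem altA_sum (l : List ℤ) : l ≠ [] → l.Pairwise lle → (∀ a ∈ l, ∀ b ∈ l, a ≠ -b) →
    ∀ s, ∑ i ∈ Finset.range l.length, altA s (l.eraseIdx i) = altA s l + altA (!s) l := by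
  induction l with
  | nil => intro h; exact absurd rfl h
  | cons a m ih =>
    intro _ hp hno s
    have hpa : ∀ b ∈ m, lle a b := (List.pairwise_cons.1 hp).1
    have hpm : m.Pairwise lle := (List.pairwise_cons.1 hp).2
    rw [List.length_cons, Finset.sum_range_succ', List.eraseIdx_cons_zero]
    have hsum : ∀ i, (a :: m).eraseIdx (i + 1) = a :: m.eraseIdx i := fun i =>
      List.eraseIdx_cons_succ
    simp only [hsum]
    by_cases hall : ∀ b ∈ m, |a| < |b|
    · have h1 : ∀ i, altA s (a :: m.eraseIdx i) =
          if decide (0 < a) = s then altA (!s) (m.eraseIdx i) else 0 := by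
        intro i
        rw [altA_cons]
        congr 1
        rw [and_iff_left]
        intro b hb
        exact hall b (List.mem_of_mem_eraseIdx hb)
      simp only [h1]
      rcases m with _ | ⟨b, m'⟩
      · rw [altA_cons, altA_cons]
        simp only [List.length_nil, Finset.range_zero, Finset.sum_empty, altA_nil, zero_add,
          List.not_mem_nil, false_imp_iff, implies_true, and_true]
        cases s <;> by_cases h : 0 < a <;> simp [h]
      · have ih' := ih (by simp) hpm (fun x hx y hy => hno x (List.mem_cons_of_mem _ hx) y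
          (List.mem_cons_of_mem _ hy))
        by_cases hs : decide (0 < a) = s
        · simp only [if_pos hs]
          rw [ih' (!s), altA_cons s a, altA_cons (!s) a, if_pos ⟨hs, hall⟩, if_neg, Bool.not_not,
            add_assoc, z2_add_self]
          intro h
          rw [hs] at h
          exact absurd h.1 (by cases s <;> simp)
        · simp only [if_neg hs, Finset.sum_const_zero, zero_add]
          have hs' : decide (0 < a) = !s := by
            revert hs
            cases s <;> by_cases h : 0 < a <;> simp [h]
          rw [altA_cons s a, altA_cons (!s) a, if_neg (fun h => hs h.1), if_pos ⟨hs', hall⟩,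
            Bool.not_not, zero_add]
    · have hr : altA s (a :: m) + altA (!s) (a :: m) = 0 := by
        rw [altA_cons, altA_cons, if_neg (fun h => hall h.2), if_neg (fun h => hall h.2),
          zero_add]
      rw [hr]
      rcases m with _ | ⟨b, m'⟩
      · exact absurd (fun b hb => absurd hb (by simp)) hall
      · have hab : a = b := by
          have h2 : lle a b := hpa b (by simp)
          have h3 : ¬ |a| < |b| := by
            intro h3
            apply hall
            intro c hc
            rcases List.mem_cons.1 hc with rfl | hc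
            · exact h3
            · have h4 : lle b c := (List.pairwise_cons.1 hpm).1 c hc
              unfold lle at h4
              omega
          have h5 : a ≠ -b := hno a (by simp) b (by simp)
          have h6 : |a| = |b| := by
            unfold lle at h2
            omega
          rcases abs_eq_abs.1 h6 with h7 | h7
          · exact h7
          · exact absurd h7 h5
        subst hab
        rw [List.length_cons, Finset.sum_range_succ', List.eraseIdx_cons_zero]
        have h8 : ∀ i, altA s (a :: (a :: m').eraseIdx (i + 1)) = 0 := by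
          intro i
          rw [List.eraseIdx_cons_succ, altA_cons, if_neg]
          intro h
          exact absurd (h.2 a (by simp)) (lt_irrefl _)
        simp only [h8, Finset.sum_const_zero, zero_add]
        exact z2_add_self _

/-- The same for multisets. -/
def altB (s : Bool) (M : Multiset ℤ) : ZMod 2 := altA s (M.sort lle)

theorem altB_sorted (s : Bool) {l : List ℤ} (h : l.Pairwise lle) : altB s l = altA s l := by
  unfold altB
  congr 1
  rw [Multiset.coe_sort]
  exact List.mergeSort_eq_self _ h

theorem sum_erase (F : Multiset ℤ → ZMod 2) (l : List ℤ) :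
    ∑ i ∈ Finset.range l.length, F (l.eraseIdx i : List ℤ) =
      ((l : Multiset ℤ).map fun a => F ((l : Multiset ℤ).erase a)).sum := by
  rw [Finset.sum_range]
  have h1 : ∀ i : Fin l.length, F ((l.eraseIdx i : List ℤ) : Multiset ℤ) =
      F ((l : Multiset ℤ).erase l[(i : ℕ)]) := by
    intro i
    congr 1
    have h2 : (l : Multiset ℤ) = l[(i : ℕ)] ::ₘ ((l.eraseIdx i : List ℤ) : Multiset ℤ) := by
      rw [Multiset.cons_coe, Multiset.coe_eq_coe]
      exact (List.getElem_cons_eraseIdx_perm i.2).symm
    conv_rhs => rw [h2]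
    rw [Multiset.erase_cons_head]
  rw [Finset.sum_congr rfl fun i _ => h1 i]
  rw [Fin.sum_univ_fun_getElem l (fun a => F ((l : Multiset ℤ).erase a))]
  rw [Multiset.map_coe, Multiset.sum_coe]

theorem altB_sum (l : List ℤ) (hl : l ≠ []) (hno : ∀ a ∈ l, ∀ b ∈ l, a ≠ -b) (s : Bool) :
    ∑ i ∈ Finset.range l.length, altB s (l.eraseIdx i : List ℤ) = altB s l + altB (!s) l := by
  set L := (l : Multiset ℤ).sort lle with hL
  have hLl : (L : Multiset ℤ) = (l : Multiset ℤ) := by
    rw [hL, Multiset.sort_eq]
  have hLs : L.Pairwise lle := Multiset.pairwise_sort _ _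
  have hmem : ∀ a, a ∈ L ↔ a ∈ l := by
    intro a
    rw [← Multiset.mem_coe, hLl, Multiset.mem_coe]
  rw [sum_erase, ← hLl, ← sum_erase]
  have h1 : ∀ i, altB s (L.eraseIdx i : List ℤ) = altA s (L.eraseIdx i) := fun i =>
    altB_sorted s (hLs.sublist (List.eraseIdx_sublist L i))
  simp only [h1]
  rw [altB_sorted _ hLs, altB_sorted _ hLs]
  apply altA_sum L _ hLs
  · intro a ha b hb
    exact hno a ((hmem a).1 ha) b ((hmem b).1 hb)
  · intro h
    apply hl
    rw [List.eq_nil_iff_forall_not_mem]
    intro a ha
    have := (hmem a).2 ha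
    rw [h] at this
    exact absurd this (by simp)

theorem altA_neg (l : List ℤ) : (∀ a ∈ l, a ≠ 0) → ∀ s,
    altA s (l.map fun a => -a) = altA (!s) l := by
  induction l with
  | nil => intro _ s; rfl
  | cons a m ih =>
    intro h s
    rw [List.map_cons, altA_cons, altA_cons, ih (fun x hx => h x (List.mem_cons_of_mem _ hx))]
    have h0 : a ≠ 0 := h a (by simp)
    have h1 : (decide (0 < -a) = s ∧ ∀ b ∈ m.map (fun a => -a), |(-a)| < |b|) ↔
        (decide (0 < a) = (!s) ∧ ∀ b ∈ m, |a| < |b|) := by
      apply and_congr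
      · rcases lt_or_gt_of_ne h0 with h2 | h2
        · have h3 : ¬ 0 < a := by omega
          have h4 : 0 < -a := by omega
          simp only [h3, h4, decide_true, decide_false]
          cases s <;> simp
        · have h4 : ¬ 0 < -a := by omega
          simp only [h2, h4, decide_true, decide_false]
          cases s <;> simp
      · simp only [List.mem_map, forall_exists_index, and_imp, forall_apply_eq_imp_iff₂, abs_neg]
    simp only [h1]

theorem altB_neg (l : List ℤ) (hno : ∀ a ∈ l, ∀ b ∈ l, a ≠ -b) (s : Bool) :
    altB s (l.map (fun a => -a) : List ℤ) = altB (!s) l := by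
  unfold altB
  have h1 : ((l : Multiset ℤ).sort lle).map (fun a => -a) =
      ((l : Multiset ℤ).map fun a => -a).sort lle := by
    apply Multiset.map_sort
    intro a ha b hb
    have h2 := hno a ha b hb
    unfold lle
    rw [abs_neg, abs_neg]
    constructor
    · rintro (h | ⟨h, h'⟩)
      · exact Or.inl h
      · rcases abs_eq_abs.1 h with h3 | h3
        · exact Or.inr ⟨h, by omega⟩
        · exact absurd h3 h2
    · rintro (h | ⟨h, h'⟩)
      · exact Or.inl h
      · rcases abs_eq_abs.1 h with h3 | h3
        · exact Or.inr ⟨h, by omega⟩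
        · exact absurd h3 h2
  rw [← Multiset.map_coe, ← h1]
  apply altA_neg
  intro a ha h0
  have h3 : a ∈ l := by
    rw [Multiset.mem_sort] at ha
    exact ha
  apply hno a h3 a h3
  rw [h0, neg_zero]

theorem altA_zero_of_long (D : ℕ) (l : List ℤ) (hD : ∀ a ∈ l, 1 ≤ |a| ∧ |a| ≤ D)
    (hlen : D < l.length) (s : Bool) : altA s l = 0 := by
  by_contra hne
  have hpw : ∀ (l : List ℤ) (s : Bool), altA s l ≠ 0 → l.Pairwise (fun a b => |a| < |b|) := by
    intro l
    induction l with
    | nil => intro s _; exact List.Pairwise.nil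
    | cons a m ih =>
      intro s h
      rw [altA_cons] at h
      by_cases hc : decide (0 < a) = s ∧ (∀ b ∈ m, |a| < |b|)
      · rw [if_pos hc] at h
        exact List.pairwise_cons.2 ⟨hc.2, ih _ h⟩
      · rw [if_neg hc] at h
        exact absurd rfl h
  have h1 := hpw l s hne
  have h2 : (l.map Int.natAbs).Nodup := by
    rw [List.nodup_iff_pairwise_ne, List.pairwise_map]
    refine h1.imp (fun {a b} h h' => ?_)
    rw [Int.abs_eq_natAbs, Int.abs_eq_natAbs, h'] at h
    exact lt_irrefl _ h
  have h3 : (l.map Int.natAbs).toFinset ⊆ Finset.Icc 1 D := by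
    intro x hx
    rw [List.mem_toFinset, List.mem_map] at hx
    obtain ⟨a, ha, rfl⟩ := hx
    have h5 := hD a ha
    rw [Int.abs_eq_natAbs] at h5
    rw [Finset.mem_Icc]
    exact ⟨by exact_mod_cast h5.1, by exact_mod_cast h5.2⟩
  have h4 := Finset.card_le_card h3
  rw [List.toFinset_card_of_nodup h2, List.length_map, Nat.card_Icc] at h4
  omega

section

variable {V : Type*} (lab : V → ℤ)

/-- The alternating count of a chain. -/
noncomputable def altC (s : Bool) : Ch V →ₗ[ZMod 2] ZMod 2 :=
  Finsupp.linearCombination (ZMod 2) (fun t => altB s (t.map lab : List ℤ))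

theorem altC_single (s : Bool) (t : List V) :
    altC lab s (Finsupp.single t 1) = altB s (t.map lab : List ℤ) := by
  unfold altC
  rw [Finsupp.linearCombination_single, one_smul]

theorem altC_bd (s : Bool) {c : Ch V}
    (hc : c ∈ On (fun t => t ≠ [] ∧ ∀ x ∈ t, ∀ y ∈ t, lab y ≠ - lab x)) :
    altC lab s (bd c) = altC lab s c + altC lab (!s) c := by
  have h := on_ext ((altC lab s).comp bd) (altC lab s + altC lab (!s))
    (P := fun t => t ≠ [] ∧ ∀ x ∈ t, ∀ y ∈ t, lab y ≠ - lab x) ?_ hc
  · rw [LinearMap.comp_apply, LinearMap.add_apply] at h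
    exact h
  · rintro t ⟨ht, hno⟩
    rw [LinearMap.comp_apply, LinearMap.add_apply, bd_single_one, altC_single, altC_single,
      bdL_eq_sum, map_sum]
    simp only [altC_single]
    rw [← altB_sum (t.map lab) (by simpa using ht)]
    · rw [List.length_map]
      refine Finset.sum_congr rfl fun i _ => ?_
      rw [List.eraseIdx_map]
    · intro a ha b hb
      rw [List.mem_map] at ha hb
      obtain ⟨x, hx, rfl⟩ := ha
      obtain ⟨y, hy, rfl⟩ := hb
      exact hno y hy x hx

theorem altC_map (κ : V → V) (s : Bool) {c : Ch V}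
    (hc : c ∈ On (fun t => (∀ x ∈ t, ∀ y ∈ t, lab y ≠ - lab x) ∧
      ∀ x ∈ t, lab (κ x) = - lab x)) :
    altC lab s (mapC κ c) = altC lab (!s) c := by
  have h := on_ext ((altC lab s).comp (mapC κ)) (altC lab (!s))
    (P := fun t => (∀ x ∈ t, ∀ y ∈ t, lab y ≠ - lab x) ∧
      ∀ x ∈ t, lab (κ x) = - lab x) ?_ hc
  · rw [LinearMap.comp_apply] at h
    exact h
  · rintro t ⟨hno, hk⟩
    rw [LinearMap.comp_apply, mapC_single, altC_single, altC_single]
    rw [← altB_neg (t.map lab)]
    · congr 2
      rw [List.map_map, List.map_map]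
      apply List.map_congr_left
      intro x hx
      exact hk x hx
    · intro a ha b hb
      rw [List.mem_map] at ha hb
      obtain ⟨x, hx, rfl⟩ := ha
      obtain ⟨y, hy, rfl⟩ := hb
      exact hno y hy x hx

/-- Mod 2 Borsuk-Ulam theorem (Ky Fan): there is no antipodal labelling with `D` labels up to
sign of a `D`-dimensional equivariant sphere. -/
theorem kyFan (κ : V → V) (near : V → V → Prop) (D : ℕ) (c : ℕ → Ch V) (v0 : V)
    (h0 : c 0 = Finsupp.single [v0] 1)
    (hc : ∀ i ≤ D, c i ∈ On (fun t => t.length = i + 1 ∧ ∀ x ∈ t, ∀ y ∈ t, near x y))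
    (hbd : ∀ i < D, bd (c (i + 1)) = c i + mapC κ (c i))
    (hk : ∀ x, near x x → lab (κ x) = - lab x)
    (hD : ∀ x, near x x → 1 ≤ |lab x| ∧ |lab x| ≤ D)
    (hn : ∀ x y, near x y → lab y ≠ - lab x) : False := by
  have hP1 : ∀ i ≤ D, c i ∈ On (fun t => t ≠ [] ∧ ∀ x ∈ t, ∀ y ∈ t, lab y ≠ - lab x) := by
    intro i hi
    refine on_mono ?_ (hc i hi)
    rintro t ⟨h1, h2⟩
    refine ⟨?_, fun x hx y hy => hn x y (h2 x hx y hy)⟩
    rintro rfl
    simp at h1
  have hP2 : ∀ i ≤ D, c i ∈ On (fun t => (∀ x ∈ t, ∀ y ∈ t, lab y ≠ - lab x) ∧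
      ∀ x ∈ t, lab (κ x) = - lab x) := by
    intro i hi
    refine on_mono ?_ (hc i hi)
    rintro t ⟨h1, h2⟩
    exact ⟨fun x hx y hy => hn x y (h2 x hx y hy), fun x hx => hk x (h2 x hx x hx)⟩
  have hsum : ∀ i ≤ D, altC lab true (c i + mapC κ (c i)) =
      altC lab true (c i) + altC lab false (c i) := by
    intro i hi
    rw [map_add, altC_map lab κ true (hP2 i hi)]
    rfl
  have hrec : ∀ i ≤ D, altC lab true (c i) + altC lab false (c i) = 1 := by
    intro i
    induction i with
    | zero =>
      intro hi
      have hv : near v0 v0 := by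
        have h1 := hc 0 hi
        rw [h0, mem_on] at h1
        have h2 : [v0] ∈ (Finsupp.single [v0] (1 : ZMod 2)).support := by
          rw [Finsupp.mem_support_iff, Finsupp.single_eq_same]
          decide
        exact (h1 _ h2).2 v0 (by simp) v0 (by simp)
      have hl := hD v0 hv
      rw [h0, altC_single, altC_single, List.map_cons, List.map_nil,
        altB_sorted _ (List.pairwise_singleton _ _), altB_sorted _ (List.pairwise_singleton _ _),
        altA_cons, altA_cons]
      simp only [List.not_mem_nil, false_imp_iff, implies_true, and_true, altA_nil]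
      by_cases h3 : 0 < lab v0
      · simp [h3]
      · simp [h3]
    | succ i ih =>
      intro hi
      rw [← ih (by omega), ← hsum i (by omega), ← hbd i (by omega),
        altC_bd lab true (hP1 (i + 1) hi)]
      rfl
  have hlast : ∀ s, altC lab s (c D) = 0 := by
    intro s
    have h := on_ext (altC lab s) 0
      (P := fun t => t.length = D + 1 ∧ ∀ x ∈ t, ∀ y ∈ t, near x y) ?_ (hc D le_rfl)
    · rw [LinearMap.zero_apply] at h
      exact h
    · rintro t ⟨h1, h2⟩
      rw [altC_single, LinearMap.zero_apply]
      unfold altB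
      apply altA_zero_of_long D
      · intro a ha
        rw [Multiset.mem_sort, Multiset.mem_coe, List.mem_map] at ha
        obtain ⟨x, hx, rfl⟩ := ha
        exact hD x (h2 x hx x hx)
      · rw [Multiset.length_sort, Multiset.coe_card, List.length_map, h1]
        omega
  have h4 := hrec D le_rfl
  rw [hlast, hlast, add_zero] at h4
  exact absurd h4 (by decide)

end

end Pool.Agent.VNP
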