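import Pool.Agent.VNP.AsRank
/-!
# The asymptotic dimension of free products
-/
namespace Pool.Agent.VNP
open Monoid Monoid.CoprodI
open scoped Pointwise

/-- The definition with multiplication from the left. -/
theorem asdim_left {G : Type} [Group G] {D : ℕ} (h : AsdimLE G D) (F : Set G) (hF : F.Finite) :
    ∃ K : Set G, K.Finite ∧ ∃ c : G → Fin (D + 1), ∀ x y : G,
      Relation.ReflTransGen (fun u v => c u = c v ∧ v * u⁻¹ ∈ F) x y → y * x⁻¹ ∈ K := by
  obtain ⟨K, hK, c, hc⟩ := h F⁻¹ hF.inv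
  refine ⟨K⁻¹, hK.inv, fun x => c x⁻¹, fun x y hxy => ?_⟩
  have h1 : Relation.ReflTransGen (fun u v => c u = c v ∧ u⁻¹ * v ∈ F⁻¹) x⁻¹ y⁻¹ := by
    refine Relation.ReflTransGen.lift (fun x => x⁻¹) ?_ _ _ hxy
    rintro u v ⟨h2, h3⟩
    refine ⟨h2, ?_⟩
    rw [Set.mem_inv]
    have : ((u⁻¹)⁻¹ * v⁻¹)⁻¹ = v * u⁻¹ := by group
    rw [this]
    exact h3
  have h2 := hc _ _ h1
  rw [Set.mem_inv]
  have : (y * x⁻¹)⁻¹ = (x⁻¹)⁻¹ * y⁻¹ := by group
  rw [this]
  exact h2

theorem asdim_of_left {G : Type} [Group G] {D : ℕ} (h : ∀ F : Set G, F.Finite →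
    ∃ K : Set G, K.Finite ∧ ∃ c : G → Fin (D + 1), ∀ x y : G,
      Relation.ReflTransGen (fun u v => c u = c v ∧ v * u⁻¹ ∈ F) x y → y * x⁻¹ ∈ K) :
    AsdimLE G D := by
  intro F hF
  obtain ⟨K, hK, c, hc⟩ := h F⁻¹ hF.inv
  refine ⟨K⁻¹, hK.inv, fun x => c x⁻¹, fun x y hxy => ?_⟩
  have h1 : Relation.ReflTransGen (fun u v => c u = c v ∧ v * u⁻¹ ∈ F⁻¹) x⁻¹ y⁻¹ := by
    refine Relation.ReflTransGen.lift (fun x => x⁻¹) ?_ _ _ hxy
    rintro u v ⟨h2, h3⟩
    refine ⟨h2, ?_⟩
    rw [Set.mem_inv]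
    have : (v⁻¹ * (u⁻¹)⁻¹)⁻¹ = u⁻¹ * v := by group
    rw [this]
    exact h3
  have h2 := hc _ _ h1
  rw [Set.mem_inv]
  have : (x⁻¹ * y)⁻¹ = y⁻¹ * (x⁻¹)⁻¹ := by group
  rw [this]
  exact h2

theorem fin_pow {M : Type} [Group M] {T : Set M} (hT : T.Finite) (n : ℕ) : (T ^ n).Finite := by
  induction n with
  | zero =>
    rw [pow_zero]
    exact Set.finite_one
  | succ n ih =>
    rw [pow_succ]
    exact ih.mul hT

/-- The length function of a finite symmetric generating set. -/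
theorem exists_norm (M : Type) [Group M] [Group.FG M] : ∃ l : M → ℕ, l 1 = 0 ∧
    (∀ m, l m = 0 → m = 1) ∧ (∀ a b, l (a * b) ≤ l a + l b) ∧ (∀ a, l a⁻¹ = l a) ∧
    ∀ n, {m | l m ≤ n}.Finite := by
  classical
  obtain ⟨S, hS⟩ := (Group.fg_def (G := M)).1 inferInstance
  set T : Set M := insert 1 ((S : Set M) ∪ (S : Set M)⁻¹) with hT
  have hTf : T.Finite := (S.finite_toSet.union S.finite_toSet.inv).insert 1
  have h1T : (1 : M) ∈ T := Set.mem_insert _ _
  have hTinv : T⁻¹ = T := by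
    ext x
    rw [Set.mem_inv, hT, Set.mem_insert_iff, Set.mem_insert_iff, Set.mem_union, Set.mem_union,
      Set.mem_inv, Set.mem_inv, inv_inv, inv_eq_one, or_comm (a := x⁻¹ ∈ (S : Set M))]
  have hmono : ∀ {a b : ℕ}, a ≤ b → T ^ a ⊆ T ^ b := fun hab => Set.pow_subset_pow_right h1T hab
  have hex : ∀ m : M, ∃ n, m ∈ T ^ n := by
    intro m
    have hm : m ∈ Subgroup.closure (S : Set M) := by
      rw [hS]
      trivial
    induction hm using Subgroup.closure_induction with
    | mem x hx => exact ⟨1, by rw [pow_one]; exact Or.inr (Or.inl hx)⟩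
    | one => exact ⟨0, by rw [pow_zero]; rfl⟩
    | mul x y _ _ hx hy =>
      obtain ⟨a, ha⟩ := hx
      obtain ⟨b, hb⟩ := hy
      exact ⟨a + b, by rw [pow_add]; exact Set.mul_mem_mul ha hb⟩
    | inv x _ hx =>
      obtain ⟨a, ha⟩ := hx
      refine ⟨a, ?_⟩
      rw [← hTinv, inv_pow, Set.mem_inv, inv_inv]
      exact ha
  refine ⟨fun m => Nat.find (hex m), ?_, ?_, ?_, ?_, ?_⟩
  · show Nat.find (hex 1) = 0
    rw [Nat.find_eq_zero, pow_zero]
    rfl
  · intro m hm
    have hm' : Nat.find (hex m) = 0 := hm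
    rw [Nat.find_eq_zero, pow_zero] at hm'
    exact hm'
  · intro a b
    refine Nat.find_min' (hex (a * b)) ?_
    rw [pow_add]
    exact Set.mul_mem_mul (Nat.find_spec (hex a)) (Nat.find_spec (hex b))
  · have hpi : ∀ (n : ℕ) (a : M), a ∈ T ^ n → a⁻¹ ∈ T ^ n := by
      intro n a ha
      have h5 : a⁻¹ ∈ (T ^ n)⁻¹ := Set.inv_mem_inv.2 ha
      rw [← inv_pow, hTinv] at h5
      exact h5
    have key : ∀ a : M, Nat.find (hex a⁻¹) ≤ Nat.find (hex a) := fun a =>
      Nat.find_min' (hex a⁻¹) (hpi _ _ (Nat.find_spec (hex a)))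
    intro a
    apply le_antisymm (key a)
    have := key a⁻¹
    simp only [inv_inv] at this
    exact this
  · intro n
    refine (fin_pow hTf n).subset ?_
    intro m hm
    exact hmono hm (Nat.find_spec (hex m))

section
variable {ι : Type} {M : ι → Type}

/-- The norm of a list of letters. -/
def nrm (l : ∀ i, M i → ℕ) (w : List (Σ i, M i)) : ℕ := (w.map fun s => l s.1 s.2).sum

theorem nrm_nil (l : ∀ i, M i → ℕ) : nrm l [] = 0 := rfl

theorem nrm_cons (l : ∀ i, M i → ℕ) (s : Σ i, M i) (w : List (Σ i, M i)) :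
    nrm l (s :: w) = l s.1 s.2 + nrm l w := rfl

theorem nrm_append (l : ∀ i, M i → ℕ) (w w' : List (Σ i, M i)) :
    nrm l (w ++ w') = nrm l w + nrm l w' := by
  unfold nrm
  rw [List.map_append, List.sum_append]

open Classical in
/-- The shortest suffix of norm greater than `T`. -/
noncomputable def suf (l : ∀ i, M i → ℕ) (T : ℕ) : List (Σ i, M i) → List (Σ i, M i)
  | [] => []
  | s :: w => if T < nrm l w then suf l T w else s :: w

theorem suf_cons_lt (l : ∀ i, M i → ℕ) {T : ℕ} (s : Σ i, M i) {w : List (Σ i, M i)}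
    (h : T < nrm l w) : suf l T (s :: w) = suf l T w := by
  rw [suf, if_pos h]

theorem suf_cons_ge (l : ∀ i, M i → ℕ) {T : ℕ} (s : Σ i, M i) {w : List (Σ i, M i)}
    (h : ¬ T < nrm l w) : suf l T (s :: w) = s :: w := by
  rw [suf, if_neg h]

/-- The decomposition of a list of norm greater than `T`. -/
theorem suf_spec (l : ∀ i, M i → ℕ) {T : ℕ} {w : List (Σ i, M i)} (h : T < nrm l w) :
    ∃ (pre p : List (Σ i, M i)) (j : ι) (s : M j), w = pre ++ (⟨j, s⟩ :: p) ∧
      suf l T w = ⟨j, s⟩ :: p ∧ nrm l pre + T < nrm l w := by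
  induction w with
  | nil =>
    rw [nrm_nil] at h
    omega
  | cons a w ih =>
    by_cases hw : T < nrm l w
    · obtain ⟨pre, p, j, s, h1, h2, h3⟩ := ih hw
      refine ⟨a :: pre, p, j, s, by rw [h1]; rfl, by rw [suf_cons_lt l a hw, h2], ?_⟩
      rw [nrm_cons, nrm_cons]
      omega
    · refine ⟨[], w, a.1, a.2, rfl, suf_cons_ge l a hw, ?_⟩
      rw [nrm_nil]
      omega

variable [∀ i, Group (M i)]

open Classical in
/-- Adding a letter that may be trivial. -/
noncomputable def hcons (i : ι) (m : M i) (z : List (Σ i, M i)) : List (Σ i, M i) :=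
  if m = 1 then z else ⟨i, m⟩ :: z

theorem nrm_hcons (l : ∀ i, M i → ℕ) (h1 : ∀ i, l i 1 = 0) (i : ι) (m : M i)
    (z : List (Σ i, M i)) : nrm l (hcons i m z) = l i m + nrm l z := by
  unfold hcons
  split
  · rename_i h
    rw [h, h1, Nat.zero_add]
  · rfl

theorem suf_hcons (l : ∀ i, M i → ℕ) {T : ℕ} (i : ι) (m : M i) {z : List (Σ i, M i)}
    (h : T < nrm l z) : suf l T (hcons i m z) = suf l T z := by
  unfold hcons
  split
  · rfl
  · exact suf_cons_lt l _ h

/-- One letter. -/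
theorem suf_step (l : ∀ i, M i → ℕ) (h1 : ∀ i, l i 1 = 0) {T : ℕ} (i : ι) (t m : M i)
    (z : List (Σ i, M i)) (hw : T < nrm l (hcons i m z)) (hw' : T < nrm l (hcons i (t * m) z)) :
    ∃ (j : ι) (s a : M j) (p : List (Σ i, M i)), suf l T (hcons i m z) = ⟨j, s⟩ :: p ∧
      suf l T (hcons i (t * m) z) = ⟨j, a * s⟩ :: p ∧
      (a = 1 ∨ (⟨j, a⟩ : Σ i, M i) = ⟨i, t⟩) := by
  by_cases hz : T < nrm l z
  · obtain ⟨pre, p, j, s, _, h2, _⟩ := suf_spec l hz
    refine ⟨j, s, 1, p, ?_, ?_, Or.inl rfl⟩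
    · rw [suf_hcons l i m hz, h2]
    · rw [suf_hcons l i (t * m) hz, h2, one_mul]
  · have e1 : m ≠ 1 := by
      rintro rfl
      rw [nrm_hcons l h1, h1] at hw
      omega
    have e2 : t * m ≠ 1 := by
      intro h
      rw [nrm_hcons l h1, h, h1] at hw'
      omega
    refine ⟨i, m, t, z, ?_, ?_, Or.inr rfl⟩
    · unfold hcons
      rw [if_neg e1]
      exact suf_cons_ge l _ hz
    · unfold hcons
      rw [if_neg e2]
      exact suf_cons_ge l _ hz

/-- The value of a list of letters. -/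
def pv (w : List (Σ i, M i)) : CoprodI M := (w.map fun s => of s.2).prod

theorem pv_cons (s : Σ i, M i) (w : List (Σ i, M i)) : pv (s :: w) = of s.2 * pv w := by
  unfold pv
  rw [List.map_cons, List.prod_cons]

theorem pv_append (w w' : List (Σ i, M i)) : pv (w ++ w') = pv w * pv w' := by
  unfold pv
  rw [List.map_append, List.prod_append]

/-- The normal form. -/
theorem exists_lf : ∃ L : CoprodI M → List (Σ i, M i), (∀ x, pv (L x) = x) ∧
    (∀ x, ∀ s ∈ L x, s.2 ≠ 1) ∧
    ∀ (x : CoprodI M) (i : ι) (t : M i), ∃ (m : M i) (z : List (Σ i, M i)),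
      L x = hcons i m z ∧ L (of t * x) = hcons i (t * m) z := by
  classical
  have hr : ∀ (i : ι) (p : Word.Pair M i),
      (Word.rcons p).toList = hcons i p.head p.tail.toList := by
    intro i p
    unfold Word.rcons hcons
    split
    · rfl
    · rfl
  refine ⟨fun x => (x • (Word.empty : Word M)).toList, ?_, ?_, ?_⟩
  · intro x
    have h1 := Word.prod_smul x (Word.empty : Word M)
    rw [Word.prod_empty, mul_one] at h1
    exact h1
  · intro x s hs
    exact (x • (Word.empty : Word M)).ne_one s hs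
  · intro x i t
    set w : Word M := x • (Word.empty : Word M) with hw
    set p := Word.equivPair i w with hp
    have h1 : Word.rcons p = w := by
      rw [← Word.equivPair_symm, hp, Equiv.symm_apply_apply]
    refine ⟨p.head, p.tail.toList, ?_, ?_⟩
    · show w.toList = _
      rw [← h1, hr]
    · show ((of t * x) • (Word.empty : Word M)).toList = _
      rw [mul_smul, ← hw, Word.of_smul_def, hr, hp]

section steps
variable (l : ∀ i, M i → ℕ) (h1 : ∀ i, l i 1 = 0) (h2 : ∀ i (a b : M i), l i (a * b) ≤ l i a + l i b)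
  (h3 : ∀ i (a : M i), l i a⁻¹ = l i a) (L : CoprodI M → List (Σ i, M i))
  (hL : ∀ (x : CoprodI M) (i : ι) (t : M i), ∃ (m : M i) (z : List (Σ i, M i)),
      L x = hcons i m z ∧ L (of t * x) = hcons i (t * m) z)

include h1 h2 h3 hL in
theorem nrm_steps (R0 : ℕ) (ts : List (Σ i, M i)) (hts : ∀ s ∈ ts, l s.1 s.2 ≤ R0)
    (x : CoprodI M) : nrm l (L (pv ts * x)) ≤ nrm l (L x) + ts.length * R0 ∧
      nrm l (L x) ≤ nrm l (L (pv ts * x)) + ts.length * R0 := by
  induction ts with
  | nil =>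
    have : pv ([] : List (Σ i, M i)) = 1 := rfl
    rw [this, one_mul]
    simp
  | cons s ts ih =>
    obtain ⟨a1, a2⟩ := ih (fun t ht => hts t (List.mem_cons_of_mem _ ht))
    have a3 := hts s List.mem_cons_self
    obtain ⟨m, z, b1, b2⟩ := hL (pv ts * x) s.1 s.2
    rw [pv_cons, mul_assoc, b2, nrm_hcons l h1]
    rw [b1, nrm_hcons l h1] at a1 a2
    have a4 := h2 s.1 s.2 m
    have a5 : l s.1 m ≤ l s.1 s.2 + l s.1 (s.2 * m) := by
      have := h2 s.1 s.2⁻¹ (s.2 * m)
      rw [h3, inv_mul_cancel_left] at this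
      exact this
    rw [List.length_cons, Nat.add_mul, Nat.one_mul]
    omega

include h1 h2 h3 hL in
theorem suf_steps (R0 : ℕ) (T0 : Set (Σ i, M i)) (hR0 : ∀ s ∈ T0, l s.1 s.2 ≤ R0)
    (ts : List (Σ i, M i)) (hts : ∀ s ∈ ts, s ∈ T0) (T : ℕ) (x : CoprodI M)
    (hx : T + ts.length * R0 < nrm l (L x)) :
    ∃ (j : ι) (s a : M j) (p : List (Σ i, M i)), suf l T (L x) = ⟨j, s⟩ :: p ∧
      suf l T (L (pv ts * x)) = ⟨j, a * s⟩ :: p ∧
      a ∈ ({a : M j | a = 1 ∨ (⟨j, a⟩ : Σ i, M i) ∈ T0}) ^ ts.length := by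
  induction ts with
  | nil =>
    have e : pv ([] : List (Σ i, M i)) = 1 := rfl
    obtain ⟨pre, p, j, s, _, b2, _⟩ := suf_spec l (w := L x) (T := T) (by simpa using hx)
    refine ⟨j, s, 1, p, b2, by rw [e, one_mul, one_mul, b2], ?_⟩
    rw [List.length_nil, pow_zero]
    rfl
  | cons τ ts ih =>
    rw [List.length_cons, Nat.add_mul, Nat.one_mul] at hx
    have hts' : ∀ s ∈ ts, s ∈ T0 := fun t ht => hts t (List.mem_cons_of_mem _ ht)
    obtain ⟨j, s, a, p, b1, b2, b3⟩ := ih hts' (by omega)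
    have hτ := hR0 τ (hts τ List.mem_cons_self)
    obtain ⟨_, a2⟩ := nrm_steps l h1 h2 h3 L hL R0 ts (fun t ht => hR0 t (hts' t ht)) x
    obtain ⟨m, z, c1, c2⟩ := hL (pv ts * x) τ.1 τ.2
    have a5 : l τ.1 m ≤ l τ.1 τ.2 + l τ.1 (τ.2 * m) := by
      have := h2 τ.1 τ.2⁻¹ (τ.2 * m)
      rw [h3, inv_mul_cancel_left] at this
      exact this
    have e1 : T < nrm l (hcons τ.1 m z) := by
      rw [← c1]
      omega
    have e2 : T < nrm l (hcons τ.1 (τ.2 * m) z) := by
      rw [nrm_hcons l h1]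
      rw [c1, nrm_hcons l h1] at a2
      omega
    obtain ⟨j', s', a', p', d1, d2, d3⟩ := suf_step l h1 τ.1 τ.2 m z e1 e2
    rw [← c1, b2, List.cons.injEq] at d1
    obtain ⟨d1, rfl⟩ := d1
    rw [Sigma.mk.injEq] at d1
    obtain ⟨rfl, d1⟩ := d1
    have d1' := eq_of_heq d1
    subst d1'
    refine ⟨j, s, a' * a, p, b1, ?_, ?_⟩
    · rw [pv_cons, mul_assoc, c2, d2, mul_assoc]
    · rw [List.length_cons, pow_succ']
      refine Set.mul_mem_mul ?_ b3
      rcases d3 with d3 | d3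
      · exact Or.inl d3
      · refine Or.inr ?_
        rw [d3]
        exact hts τ List.mem_cons_self

end steps

theorem div_eq_of {W d a b : ℕ} (hW : d < W) (h1 : a ≤ b + d) (h2 : b ≤ a + d)
    (hp : (a / W) % 2 = (b / W) % 2) : a / W = b / W := by
  have key : ∀ a b : ℕ, b ≤ a + d → (a / W) % 2 = (b / W) % 2 → b / W ≤ a / W := by
    intro a b h hp
    by_contra hlt
    push Not at hlt
    have h3 : a / W + 2 ≤ b / W := by omega
    have h4 : W * (a / W + 2) ≤ W * (b / W) := Nat.mul_le_mul_left _ h3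
    have h5 := Nat.mul_div_le b W
    have h6 := Nat.lt_mul_div_succ a (show 0 < W by omega)
    have h7 : W * (a / W + 2) = W * (a / W + 1) + W := by ring
    omega
  exact le_antisymm (key b a h1 hp.symm) (key a b h2 hp)

/-- Balls are finite. -/
theorem lists_finite [Finite ι] (l : ∀ i, M i → ℕ) (h0 : ∀ i (m : M i), l i m = 0 → m = 1)
    (hf : ∀ i n, {m : M i | l i m ≤ n}.Finite) (n : ℕ) :
    {w : List (Σ i, M i) | (∀ s ∈ w, s.2 ≠ 1) ∧ nrm l w ≤ n}.Finite := by
  set B : Set (Σ i, M i) := {s | l s.1 s.2 ≤ n} with hB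
  have hBf : B.Finite := by
    have : B = ⋃ i, (Sigma.mk i) '' {m : M i | l i m ≤ n} := by
      ext ⟨i, m⟩
      rw [Set.mem_iUnion]
      constructor
      · intro h
        exact ⟨i, m, h, rfl⟩
      · rintro ⟨j, m', h, he⟩
        rw [← he]
        exact h
    rw [this]
    exact Set.finite_iUnion fun i => (hf i n).image _
  have : Finite B := hBf
  refine ((List.finite_length_le B n).image (fun w : List B => w.map Subtype.val)).subset ?_
  rintro w ⟨hw1, hw2⟩
  have key : ∀ w : List (Σ i, M i), (∀ s ∈ w, s.2 ≠ 1) → w.length ≤ nrm l w := by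
    intro w
    induction w with
    | nil => intro _; simp
    | cons s w ih =>
      intro hs
      have e1 := ih (fun t ht => hs t (List.mem_cons_of_mem _ ht))
      have e2 : l s.1 s.2 ≠ 0 := fun h => hs s List.mem_cons_self (h0 _ _ h)
      rw [nrm_cons, List.length_cons]
      omega
  have hmem : ∀ s ∈ w, s ∈ B := by
    intro s hs
    obtain ⟨u, v, rfl⟩ := List.append_of_mem hs
    rw [nrm_append, nrm_cons] at hw2
    show l s.1 s.2 ≤ n
    omega
  refine ⟨w.attach.map (fun s => ⟨s.1, hmem s.1 s.2⟩), ?_, ?_⟩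
  · show (w.attach.map _).length ≤ n
    rw [List.length_map, List.length_attach]
    exact (key w hw1).trans hw2
  · simp

/-- **The asymptotic dimension of free products.** -/
theorem asdimLE_freeProd [Finite ι] [∀ i, Group.FG (M i)] {D : ℕ} (h : ∀ i, AsdimLE (M i) D) :
    AsdimLE (CoprodI M) (2 * D + 1) := by
  classical
  apply asdim_of_left
  intro F hF
  choose l hl1 hl0 hlm hli hlf using fun i => exists_norm (M i)
  obtain ⟨L, hLv, hLn, hLs⟩ := exists_lf (M := M)
  set T0 : Set (Σ i, M i) := ⋃ f ∈ F, {s | s ∈ L f} with hT0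
  have hT0f : T0.Finite := hF.biUnion fun f _ => List.finite_toSet _
  obtain ⟨n, hn⟩ : BddAbove ((fun f : CoprodI M => (L f).length) '' F) := (hF.image _).bddAbove
  obtain ⟨R0, hR0'⟩ : BddAbove ((fun s : (Σ i, M i) => l s.1 s.2) '' T0) :=
    (hT0f.image _).bddAbove
  have hR0 : ∀ s ∈ T0, l s.1 s.2 ≤ R0 := fun s hs => hR0' ⟨s, hs, rfl⟩
  have hn' : ∀ f ∈ F, (L f).length ≤ n := fun f hf => hn ⟨f, hf, rfl⟩
  set W : ℕ := n * R0 + 1 with hW
  set E : ∀ j, Set (M j) := fun j => {a : M j | a = 1 ∨ (⟨j, a⟩ : Σ i, M i) ∈ T0} with hE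
  have hEf : ∀ j, (E j).Finite := by
    intro j
    have : E j = insert 1 (Sigma.mk j ⁻¹' T0) := rfl
    rw [this]
    exact (hT0f.preimage (sigma_mk_injective.injOn)).insert 1
  choose K hK c hc using fun j => asdim_left (h j) ((E j) ^ n) (fin_pow (hEf j) n)
  set hcol : List (Σ i, M i) → Fin (D + 1) := fun w => w.head?.elim 0 (fun s => c s.1 s.2)
    with hhcol
  set cut : CoprodI M → List (Σ i, M i) := fun x => suf l ((nrm l (L x) / W - 1) * W) (L x)
    with hcut
  set Bl : Set (CoprodI M) := pv '' {w : List (Σ i, M i) | (∀ s ∈ w, s.2 ≠ 1) ∧ nrm l w ≤ 2 * W}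
    with hBl
  have hBlf : Bl.Finite := (lists_finite l hl0 hlf _).image _
  refine ⟨Bl * (insert 1 (⋃ j, of '' (K j))) * Bl⁻¹,
    (hBlf.mul ((Set.finite_iUnion fun j => (hK j).image _).insert 1)).mul hBlf.inv,
    fun x => ⟨2 * (hcol (cut x) : ℕ) + (nrm l (L x) / W) % 2, by
      have := (hcol (cut x)).2
      omega⟩, ?_⟩
  intro x y hxy
  set k : ℕ := nrm l (L x) / W with hk
  set T : ℕ := (k - 1) * W with hT
  have key : nrm l (L y) / W = k ∧ (1 ≤ k → ∃ (j : ι) (s s' : M j) (p : List (Σ i, M i)),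
      suf l T (L x) = ⟨j, s⟩ :: p ∧ suf l T (L y) = ⟨j, s'⟩ :: p ∧
      Relation.ReflTransGen (fun u v : M j => c j u = c j v ∧ v * u⁻¹ ∈ (E j) ^ n) s s') := by
    induction hxy with
    | refl =>
      refine ⟨rfl, fun hk1 => ?_⟩
      have e1 : T < nrm l (L x) := by
        have e2 : k * W ≤ nrm l (L x) := Nat.div_mul_le_self _ _
        have e3 : k * W = T + W := by
          rw [hT]
          obtain ⟨k', hk'⟩ := Nat.exists_eq_add_of_le hk1
          rw [hk', Nat.add_sub_cancel_left]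
          ring
        omega
      obtain ⟨pre, p, j, s, _, b2, _⟩ := suf_spec l e1
      exact ⟨j, s, s, p, b2, b2, Relation.ReflTransGen.refl⟩
    | tail _ huv ih =>
      rename_i u v _
      obtain ⟨i1, i2⟩ := ih
      obtain ⟨hcuv, hf⟩ := huv
      set f := v * u⁻¹ with hfdef
      have hvf : v = pv (L f) * u := by
        rw [hLv, hfdef]
        group
      have hLf : ∀ s ∈ L f, s ∈ T0 := fun s hs => Set.mem_biUnion hf hs
      have hlen := hn' f hf
      have hlen' : (L f).length * R0 ≤ n * R0 := Nat.mul_le_mul_right _ hlen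
      obtain ⟨n1, n2⟩ := nrm_steps l hl1 hlm hli L hLs R0 (L f) (fun s hs => hR0 s (hLf s hs)) u
      rw [← hvf] at n1 n2
      have hcuv' := congrArg Fin.val hcuv
      simp only at hcuv'
      have hk2 : nrm l (L v) / W = nrm l (L u) / W := by
        apply div_eq_of (d := n * R0) (by omega) (by omega) (by omega)
        omega
      refine ⟨hk2.trans i1, fun hk1 => ?_⟩
      obtain ⟨j, s, s', p, j1, j2, j3⟩ := i2 hk1
      have e1 : T + (L f).length * R0 < nrm l (L u) := by
        have e2 : k * W ≤ nrm l (L u) := by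
          rw [← i1]
          exact Nat.div_mul_le_self _ _
        have e3 : k * W = T + W := by
          rw [hT]
          obtain ⟨k', hk'⟩ := Nat.exists_eq_add_of_le hk1
          rw [hk', Nat.add_sub_cancel_left]
          ring
        omega
      obtain ⟨j', s'', a, p', k1, k2, k3⟩ :=
        suf_steps l hl1 hlm hli L hLs R0 T0 hR0 (L f) hLf T u e1
      rw [← hvf] at k2
      rw [j2, List.cons.injEq] at k1
      obtain ⟨k1, rfl⟩ := k1
      rw [Sigma.mk.injEq] at k1
      obtain ⟨rfl, k1⟩ := k1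
      have k1' := eq_of_heq k1
      subst k1'
      refine ⟨j, s, a * s', p, j1, k2, j3.tail ⟨?_, ?_⟩⟩
      · have c1 : hcol (cut u) = c j s' := by
          rw [hcut, hhcol]
          simp only
          rw [i1, j2]
          rfl
        have c2 : hcol (cut v) = c j (a * s') := by
          rw [hcut, hhcol]
          simp only
          rw [hk2, i1, k2]
          rfl
        rw [← c1, ← c2]
        apply Fin.ext
        omega
      · rw [mul_inv_cancel_right]
        have hone : (1 : M j) ∈ E j := Or.inl rfl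
        exact Set.pow_subset_pow_right hone hlen k3
  obtain ⟨key1, key2⟩ := key
  have hlt : ∀ z : CoprodI M, nrm l (L z) / W = k → nrm l (L z) < (k + 1) * W := by
    intro z hz
    have := Nat.lt_mul_div_succ (nrm l (L z)) (show 0 < W by omega)
    rw [hz, mul_comm] at this
    exact this
  rcases Nat.eq_zero_or_pos k with hk0 | hk0
  · have hin : ∀ z : CoprodI M, nrm l (L z) / W = k → z ∈ Bl := by
      intro z hz
      refine ⟨L z, ⟨hLn z, ?_⟩, hLv z⟩
      have := hlt z hz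
      rw [hk0, Nat.zero_add, Nat.one_mul] at this
      omega
    have e : y * x⁻¹ = y * 1 * x⁻¹ := by group
    rw [e]
    exact Set.mul_mem_mul (Set.mul_mem_mul (hin y key1) (Set.mem_insert _ _))
      (Set.inv_mem_inv.2 (hin x hk.symm))
  · obtain ⟨j, s, s', p, j1, j2, j3⟩ := key2 hk0
    have hss := hc j s s' j3
    have hkW : k * W = T + W := by
      rw [hT]
      obtain ⟨k', hk'⟩ := Nat.exists_eq_add_of_le hk0
      rw [hk', Nat.succ_eq_add_one, Nat.zero_add, Nat.add_sub_cancel_left]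
      ring
    have hdec : ∀ (z : CoprodI M) (s : M j), nrm l (L z) / W = k → suf l T (L z) = ⟨j, s⟩ :: p →
        ∃ b ∈ Bl, z = b * (of s * pv p) := by
      intro z s hz hs
      have e1 : T < nrm l (L z) := by
        have e2 : k * W ≤ nrm l (L z) := by
          rw [← hz]
          exact Nat.div_mul_le_self _ _
        omega
      obtain ⟨pre, p', j', s'', b1, b2, b3⟩ := suf_spec l e1
      rw [hs] at b2
      rw [← b2] at b1
      refine ⟨pv pre, ⟨pre, ⟨fun t ht => hLn z t ?_, ?_⟩, rfl⟩, ?_⟩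
      · rw [b1]
        exact List.mem_append_left _ ht
      · have := hlt z hz
        have e3 : (k + 1) * W = k * W + W := by ring
        omega
      · rw [← hLv z, b1, pv_append, pv_cons]
    obtain ⟨b, hb, hxb⟩ := hdec x s hk.symm j1
    obtain ⟨b', hb', hyb⟩ := hdec y s' key1 j2
    have e : y * x⁻¹ = b' * of (s' * s⁻¹) * b⁻¹ := by
      rw [hxb, hyb, map_mul, map_inv]
      group
    rw [e]
    exact Set.mul_mem_mul (Set.mul_mem_mul hb' (Or.inr (Set.mem_iUnion.2 ⟨j, _, hss, rfl⟩)))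
      (Set.inv_mem_inv.2 hb)

end

end Pool.Agent.VNP
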