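import Pool.Agent.VNP.AsFree
/-!
# Finite asymptotic dimension: finite products
-/
namespace Pool.Agent.VNP

theorem asdimLE_equiv {G H : Type} [Group G] [Group H] (e : G ≃* H) {D : ℕ} (h : AsdimLE G D) :
    AsdimLE H D :=
  asdimLE_of_injective e.symm.toMonoidHom e.symm.injective h

/-- Direct products. -/
theorem asdimLE_prod {G H : Type} [Group G] [Group H] {D₁ D₂ : ℕ} (h1 : AsdimLE G D₁)
    (h2 : AsdimLE H D₂) : AsdimLE (G × H) ((D₁ + 1) * (D₂ + 1) - 1) := by
  have hs : Function.Surjective (MonoidHom.snd G H) := fun y => ⟨(1, y), rfl⟩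
  have h3 : AsdimLE (MonoidHom.snd G H).ker D₁ := by
    refine asdimLE_of_injective ((MonoidHom.fst G H).comp (MonoidHom.snd G H).ker.subtype) ?_ h1
    intro a b hab
    have e1 : (a : G × H).2 = 1 := a.2
    have e2 : (b : G × H).2 = 1 := b.2
    have e3 : (a : G × H).1 = (b : G × H).1 := hab
    exact Subtype.ext (Prod.ext e3 (by rw [e1, e2]))
  exact asdimLE_ext _ h3
    (asdimLE_equiv (QuotientGroup.quotientKerEquivOfSurjective (MonoidHom.snd G H) hs).symm h2)

/-- Finite direct products. -/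
theorem asdimLE_pi {κ : Type} [Finite κ] (K : κ → Type) [∀ i, Group (K i)]
    (h : ∀ i, ∃ D, AsdimLE (K i) D) : ∃ D, AsdimLE (∀ i, K i) D := by
  revert K
  refine Finite.induction_empty_option
    (P := fun κ : Type => ∀ (K : κ → Type) [∀ i, Group (K i)],
      (∀ i, ∃ D, AsdimLE (K i) D) → ∃ D, AsdimLE (∀ i, K i) D) ?_ ?_ ?_ κ
  · intro α β e ih K _ h
    obtain ⟨D, hD⟩ := ih (fun a => K (e a)) (fun a => h (e a))
    refine ⟨D, asdimLE_of_injective
      (MonoidHom.pi (fun a => Pi.evalMonoidHom K (e a))) ?_ hD⟩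
    intro f g hfg
    funext i
    obtain ⟨a, rfl⟩ := e.surjective i
    exact congrFun hfg a
  · intro K _ _
    have : Finite (∀ i : PEmpty, K i) := inferInstance
    exact ⟨0, asdimLE_finite _⟩
  · intro α _ ih K _ h
    obtain ⟨D1, hD1⟩ := h none
    obtain ⟨D2, hD2⟩ := ih (fun a => K (some a)) (fun a => h (some a))
    refine ⟨_, asdimLE_of_injective
      (MonoidHom.prod (Pi.evalMonoidHom K none)
        (MonoidHom.pi (fun a => Pi.evalMonoidHom K (some a)))) ?_ (asdimLE_prod hD1 hD2)⟩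
    intro f g hfg
    funext i
    cases i with
    | none => exact congrArg Prod.fst hfg
    | some a => exact congrFun (congrArg Prod.snd hfg) a

/-- Groups that are virtually a finite direct product of free groups of finite rank. -/
theorem asdimLE_vprod {Q κ : Type} [Group Q] [Finite κ] (X : κ → Type) [∀ i, Finite (X i)]
    (Q0 : Subgroup Q) [Q0.FiniteIndex] (e : Q0 ≃* ∀ i, FreeGroup (X i)) :
    ∃ D, AsdimLE Q D := by
  obtain ⟨D, hD⟩ := asdimLE_pi (fun i => FreeGroup (X i)) (fun i => ⟨1, asdimLE_free (X i)⟩)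
  exact asdimLE_of_fi Q0 (asdimLE_of_injective e.toMonoidHom e.injective hD)

end Pool.Agent.VNP
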