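import Pool.Agent.VNP.AsExt
/-!
# Finite asymptotic dimension: local groups and solvable groups of finite rank
-/
namespace Pool.Agent.VNP

open scoped commutatorElement

/-- Monotonicity in the dimension. -/
theorem asdimLE_mono {G : Type} [Group G] {D D' : ℕ} (hD : D ≤ D') (h : AsdimLE G D) :
    AsdimLE G D' := by
  intro F hF
  obtain ⟨K, hK, c, hc⟩ := h F hF
  refine ⟨K, hK, fun x => Fin.castLE (by omega) (c x), ?_⟩
  intro x y hxy
  refine hc x y ?_
  induction hxy with
  | refl => exact Relation.ReflTransGen.refl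
  | tail _ hab ih =>
    exact ih.tail ⟨Fin.castLE_injective _ hab.1, hab.2⟩

/-- The bound is local: it is enough to bound the finitely generated subgroups. -/
theorem asdimLE_local {G : Type} [Group G] {D : ℕ}
    (h : ∀ K : Subgroup G, K.FG → AsdimLE K D) : AsdimLE G D := by
  classical
  intro F hF
  set H : Subgroup G := Subgroup.closure F with hH
  have hFH : ∀ f ∈ F, f ∈ H := fun f hf => Subgroup.subset_closure hf
  have hfg : H.FG := (Subgroup.fg_iff H).2 ⟨F, rfl, hF⟩
  obtain ⟨K, hK, c, hc⟩ := h H hfg {f : H | (f : G) ∈ F} (hF.preimage Subtype.coe_injective.injOn)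
  let r : G → G := fun x => ((x : G ⧸ H)).out
  have hr : ∀ x, (r x)⁻¹ * x ∈ H := by
    intro x
    have h1 : ((r x : G) : G ⧸ H) = (x : G ⧸ H) := QuotientGroup.out_eq' _
    exact QuotientGroup.eq.1 h1
  have hrr : ∀ x y, x⁻¹ * y ∈ H → r x = r y := by
    intro x y hxy
    show ((x : G ⧸ H)).out = ((y : G ⧸ H)).out
    rw [QuotientGroup.eq.2 hxy]
  let n : G → H := fun x => ⟨_, hr x⟩
  refine ⟨Subtype.val '' K, hK.image _, fun x => c (n x), ?_⟩
  intro x y hxy
  have key : r x = r y ∧ Relation.ReflTransGen
      (fun u v : H => c u = c v ∧ u⁻¹ * v ∈ {f : H | (f : G) ∈ F}) (n x) (n y) := by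
    induction hxy with
    | refl => exact ⟨rfl, Relation.ReflTransGen.refl⟩
    | @tail u v _ hab ih =>
      have hr1 := hrr u v (hFH _ hab.2)
      refine ⟨ih.1.trans hr1, ih.2.tail ⟨hab.1, ?_⟩⟩
      show ((r u)⁻¹ * u)⁻¹ * ((r v)⁻¹ * v) ∈ F
      rw [← hr1]
      have e : ((r u)⁻¹ * u)⁻¹ * ((r u)⁻¹ * v) = u⁻¹ * v := by group
      rw [e]
      exact hab.2
  refine ⟨(n x)⁻¹ * n y, hc _ _ key.2, ?_⟩
  show ((r x)⁻¹ * x)⁻¹ * ((r y)⁻¹ * y) = x⁻¹ * y
  rw [← key.1]
  group

/-- Cyclic groups, with the explicit bound. -/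
theorem asdimLE_zpowers_one {G : Type} [Group G] (a : G) : AsdimLE (Subgroup.zpowers a) 1 := by
  by_cases ha : IsOfFinOrder a
  · have : Finite (Subgroup.zpowers a) := finite_zpowers.2 ha
    exact asdimLE_mono (Nat.zero_le 1) (asdimLE_finite _)
  · have hinj : Function.Injective (fun n : ℤ => a ^ n) :=
      injective_zpow_iff_not_isOfFinOrder.2 ha
    let φ : Multiplicative ℤ →* Subgroup.zpowers a :=
      { toFun := fun n => ⟨a ^ (Multiplicative.toAdd n), Subgroup.zpow_mem_zpowers a _⟩
        map_one' := by
          apply Subtype.ext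
          show a ^ (Multiplicative.toAdd (1 : Multiplicative ℤ)) = 1
          rw [toAdd_one, zpow_zero]
        map_mul' := by
          intro x y
          apply Subtype.ext
          show a ^ (Multiplicative.toAdd (x * y)) =
            a ^ (Multiplicative.toAdd x) * a ^ (Multiplicative.toAdd y)
          rw [toAdd_mul, zpow_add] }
    have hbij : Function.Bijective φ := by
      constructor
      · intro x y hxy
        have h1 : a ^ (Multiplicative.toAdd x) = a ^ (Multiplicative.toAdd y) :=
          congrArg Subtype.val hxy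
        exact Multiplicative.toAdd.injective (hinj h1)
      · rintro ⟨_, ⟨n, rfl⟩⟩
        exact ⟨Multiplicative.ofAdd n, rfl⟩
    let e := MulEquiv.ofBijective φ hbij
    exact asdimLE_of_injective e.symm.toMonoidHom e.symm.injective asdimLE_int

/-- Groups generated by at most `n` commuting elements, with the explicit bound. -/
theorem asdimLE_comm_pow : ∀ (n : ℕ) (Q : Type) [Group Q], (∀ a b : Q, a * b = b * a) →
    (∃ S : Finset Q, S.card ≤ n ∧ Subgroup.closure (S : Set Q) = ⊤) → AsdimLE Q (2 ^ n - 1) := by
  classical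
  intro n
  induction n with
  | zero =>
    rintro Q _ _ ⟨S, hS, htop⟩
    have hS0 : S = ∅ := Finset.card_eq_zero.1 (Nat.le_zero.1 hS)
    subst hS0
    rw [Finset.coe_empty, Subgroup.closure_empty] at htop
    have : Subsingleton Q := Subgroup.subsingleton_iff.1 (subsingleton_of_bot_eq_top htop)
    exact asdimLE_finite Q
  | succ n ih =>
    rintro Q _ hcomm ⟨S, hS, htop⟩
    have hpow : 1 ≤ 2 ^ n := Nat.one_le_two_pow
    rcases S.eq_empty_or_nonempty with rfl | ⟨a, ha⟩
    · refine asdimLE_mono ?_ (ih Q hcomm ⟨∅, by simp, htop⟩)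
      rw [pow_succ]
      omega
    · have hN : (Subgroup.zpowers a).Normal := ⟨fun x hx g => by
        rw [hcomm g x, mul_inv_cancel_right]; exact hx⟩
      let π : Q →* Q ⧸ Subgroup.zpowers a := QuotientGroup.mk' _
      have hsurj : Function.Surjective π := QuotientGroup.mk'_surjective _
      have h2 := ih (Q ⧸ Subgroup.zpowers a) (by
        intro x y
        obtain ⟨x, rfl⟩ := hsurj x
        obtain ⟨y, rfl⟩ := hsurj y
        rw [← map_mul, ← map_mul, hcomm]) ⟨(S.erase a).image π, by
          refine Finset.card_image_le.trans ?_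
          rw [Finset.card_erase_of_mem ha]
          omega, by
          rw [Finset.coe_image, ← MonoidHom.map_closure]
          rw [eq_top_iff]
          rintro x -
          obtain ⟨y, rfl⟩ := hsurj x
          have hy : y ∈ Subgroup.closure (S : Set Q) := by rw [htop]; exact Subgroup.mem_top _
          induction hy using Subgroup.closure_induction with
          | mem z hz =>
            by_cases hza : z = a
            · have : π z = 1 := by
                rw [hza]
                exact (QuotientGroup.eq_one_iff a).2 (Subgroup.mem_zpowers a)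
              rw [this]
              exact Subgroup.one_mem _
            · exact ⟨z, Subgroup.subset_closure (by
                rw [Finset.coe_erase]; exact ⟨hz, hza⟩), rfl⟩
          | one => rw [map_one]; exact Subgroup.one_mem _
          | mul x y _ _ hx hy => rw [map_mul]; exact Subgroup.mul_mem _ hx hy
          | inv x _ hx => rw [map_inv]; exact Subgroup.inv_mem _ hx⟩
      refine asdimLE_mono ?_ (asdimLE_ext _ (asdimLE_zpowers_one a) h2)
      rw [pow_succ]
      omega

/-- Groups in which all elements commute and all finitely generated subgroups are generated by at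
most `r` elements. -/
theorem asdimLE_comm_rank {Q : Type} [Group Q] (hcomm : ∀ a b : Q, a * b = b * a) (r : ℕ)
    (hr : ∀ K : Subgroup Q, K.FG → ∃ T : Finset Q, T.card ≤ r ∧
      Subgroup.closure (T : Set Q) = K) : AsdimLE Q (2 ^ r - 1) := by
  classical
  refine asdimLE_local fun K hK => ?_
  obtain ⟨T, hT, hTK⟩ := hr K hK
  refine asdimLE_comm_pow r K (fun a b => Subtype.ext (hcomm _ _)) ?_
  have hsub : ∀ t ∈ T, t ∈ K := fun t ht => by
    rw [← hTK]; exact Subgroup.subset_closure ht
  refine ⟨T.attach.image fun t => ⟨t.1, hsub t.1 t.2⟩,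
    Finset.card_image_le.trans (by rw [Finset.card_attach]; exact hT), ?_⟩
  -- the generators generate
  have hinj : Function.Injective (Subgroup.map K.subtype) :=
    Subgroup.map_injective K.subtype_injective
  apply hinj
  rw [MonoidHom.map_closure, ← MonoidHom.range_eq_map, Subgroup.range_subtype]
  have e : (K.subtype '' ((T.attach.image fun t => (⟨t.1, hsub t.1 t.2⟩ : K)) : Finset K)) =
      (T : Set Q) := by
    ext x
    constructor
    · rintro ⟨y, hy, rfl⟩
      rw [Finset.mem_coe, Finset.mem_image] at hy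
      obtain ⟨t, _, rfl⟩ := hy
      exact t.2
    · intro hx
      exact ⟨⟨x, hsub x hx⟩, Finset.mem_coe.2 (Finset.mem_image.2
        ⟨⟨x, hx⟩, Finset.mem_attach _ _, rfl⟩), rfl⟩
  rw [e, hTK]

/-- Lifting finitely generated subgroups. -/
theorem rank_of_surjective {G Q : Type} [Group G] [Group Q] (π : G →* Q)
    (hπ : Function.Surjective π) (r : ℕ)
    (hr : ∀ K : Subgroup G, K.FG → ∃ T : Finset G, T.card ≤ r ∧
      Subgroup.closure (T : Set G) = K) :
    ∀ K : Subgroup Q, K.FG → ∃ T : Finset Q, T.card ≤ r ∧ Subgroup.closure (T : Set Q) = K := by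
  classical
  intro K hK
  obtain ⟨S, hS⟩ := hK
  let s : Q → G := Function.surjInv hπ
  have hs : ∀ q, π (s q) = q := Function.surjInv_eq hπ
  obtain ⟨T, hT, hTK⟩ := hr (Subgroup.closure ((S.image s : Finset G) : Set G)) ⟨_, rfl⟩
  refine ⟨T.image π, Finset.card_image_le.trans hT, ?_⟩
  rw [Finset.coe_image, ← MonoidHom.map_closure, hTK, MonoidHom.map_closure, Finset.coe_image,
    ← hS]
  congr 1
  rw [← Set.image_comp]
  have : (π ∘ s) = id := funext hs
  show ((π ∘ s) '' (S : Set Q)) = S
  rw [this, Set.image_id]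

/-- Restricting to subgroups. -/
theorem rank_subgroup {G : Type} [Group G] (H : Subgroup G) (r : ℕ)
    (hr : ∀ K : Subgroup G, K ≤ H → K.FG → ∃ T : Finset G, T.card ≤ r ∧
      Subgroup.closure (T : Set G) = K) :
    ∀ K : Subgroup H, K.FG → ∃ T : Finset H, T.card ≤ r ∧ Subgroup.closure (T : Set H) = K := by
  classical
  intro K hK
  have hmap : (K.map H.subtype).FG := by
    obtain ⟨S, hS⟩ := hK
    exact ⟨S.image H.subtype, by rw [Finset.coe_image, ← MonoidHom.map_closure, hS]⟩
  have hle : K.map H.subtype ≤ H := Subgroup.map_subtype_le K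
  obtain ⟨T, hT, hTK⟩ := hr _ hle hmap
  have hsub : ∀ t ∈ T, t ∈ H := fun t ht =>
    hle (by rw [← hTK]; exact Subgroup.subset_closure ht)
  refine ⟨T.attach.image fun t => ⟨t.1, hsub t.1 t.2⟩,
    Finset.card_image_le.trans (by rw [Finset.card_attach]; exact hT), ?_⟩
  have hinj : Function.Injective (Subgroup.map H.subtype) :=
    Subgroup.map_injective H.subtype_injective
  apply hinj
  rw [MonoidHom.map_closure]
  have e : (H.subtype '' ((T.attach.image fun t => (⟨t.1, hsub t.1 t.2⟩ : H)) : Finset H)) =
      (T : Set G) := by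
    ext x
    constructor
    · rintro ⟨y, hy, rfl⟩
      rw [Finset.mem_coe, Finset.mem_image] at hy
      obtain ⟨t, _, rfl⟩ := hy
      exact t.2
    · intro hx
      exact ⟨⟨x, hsub x hx⟩, Finset.mem_coe.2 (Finset.mem_image.2
        ⟨⟨x, hx⟩, Finset.mem_attach _ _, rfl⟩), rfl⟩
  rw [e, hTK]

/-- Solvable groups of finite rank. -/
theorem asdimLE_solvRank {S : Type} [Group S] [hS : Group.IsSolvable S] (r : ℕ)
    (hr : ∀ K : Subgroup S, K.FG → ∃ T : Finset S, T.card ≤ r ∧
      Subgroup.closure (T : Set S) = K) : ∃ D, AsdimLE S D := by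
  obtain ⟨n, hn⟩ := hS.solvable
  have key : ∀ m, m ≤ n → ∃ D, AsdimLE (derivedSeries S (n - m)) D := by
    intro m
    induction m with
    | zero =>
      intro _
      rw [Nat.sub_zero, hn]
      exact ⟨0, asdimLE_finite _⟩
    | succ m ih =>
      intro hm
      obtain ⟨D₁, h1⟩ := ih (by omega)
      set i := n - (m + 1) with hi
      have hi1 : n - m = i + 1 := by omega
      rw [hi1] at h1
      have hle : derivedSeries S (i + 1) ≤ derivedSeries S i := by
        rw [derivedSeries_succ]
        exact Subgroup.commutator_le_left _ _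
      let B := (derivedSeries S (i + 1)).subgroupOf (derivedSeries S i)
      have hBn : B.Normal := inferInstance
      have hB1 : AsdimLE B D₁ :=
        asdimLE_of_injective (Subgroup.subgroupOfEquivOfLe hle).toMonoidHom
          (Subgroup.subgroupOfEquivOfLe hle).injective h1
      let π : derivedSeries S i →* (derivedSeries S i) ⧸ B := QuotientGroup.mk' _
      have hsurj : Function.Surjective π := QuotientGroup.mk'_surjective _
      have h2 : AsdimLE ((derivedSeries S i) ⧸ B) (2 ^ r - 1) := asdimLE_comm_rank (by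
        intro x y
        obtain ⟨x, rfl⟩ := hsurj x
        obtain ⟨y, rfl⟩ := hsurj y
        rw [← map_mul, ← map_mul]
        refine QuotientGroup.eq.2 ?_
        show ((((x * y)⁻¹ * (y * x) : derivedSeries S i)) : S) ∈ derivedSeries S (i + 1)
        rw [derivedSeries_succ]
        have e : ((((x * y)⁻¹ * (y * x) : derivedSeries S i)) : S) =
            ⁅((y : S))⁻¹, ((x : S))⁻¹⁆ := by
          rw [commutatorElement_def]
          push_cast
          group
        rw [e]
        exact Subgroup.commutator_mem_commutator (inv_mem y.2) (inv_mem x.2)) r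
        (rank_of_surjective π hsurj r (rank_subgroup _ r fun K _ hK => hr K hK))
      exact ⟨_, asdimLE_ext B hB1 h2⟩
  obtain ⟨D, hD⟩ := key n le_rfl
  rw [Nat.sub_self] at hD
  refine ⟨D, asdimLE_of_injective (G := derivedSeries S 0)
    { toFun := fun x => ⟨x, by rw [derivedSeries_zero]; exact Subgroup.mem_top x⟩
      map_one' := rfl
      map_mul' := fun _ _ => rfl } ?_ hD⟩
  intro x y hxy
  exact congrArg Subtype.val hxy

/-- Groups with a solvable subgroup of finite index and of finite rank. -/
theorem asdimLE_virtRank {G : Type} [Group G] (H : Subgroup G) [H.FiniteIndex]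
    [Group.IsSolvable H] (r : ℕ)
    (hr : ∀ K : Subgroup G, K ≤ H → K.FG → ∃ T : Finset G, T.card ≤ r ∧
      Subgroup.closure (T : Set G) = K) : ∃ D, AsdimLE G D := by
  obtain ⟨D, hD⟩ := asdimLE_solvRank r (rank_subgroup H r hr)
  exact asdimLE_of_fi H hD

end Pool.Agent.VNP
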