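import Mathlib

/-!
# Mod 2 chains on tuples

The basis elements are the lists (tuples) of vertices; the empty list is in degree `-1`
(augmented complex).
-/

namespace Pool.Agent.VNP

/-- Chains with coefficients in `ZMod 2` on lists. -/
abbrev Ch (V : Type*) := List V →₀ ZMod 2

/-- The cone operator. -/
noncomputable def cone {V : Type*} (v : V) : Ch V →ₗ[ZMod 2] Ch V :=
  Finsupp.lmapDomain (ZMod 2) (ZMod 2) (List.cons v)

theorem cone_single {V : Type*} (v : V) (t : List V) (a : ZMod 2) :
    cone v (Finsupp.single t a) = Finsupp.single (v :: t) a := by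
  unfold cone
  rw [Finsupp.lmapDomain_apply, Finsupp.mapDomain_single]

/-- The boundary of a tuple. -/
noncomputable def bdL {V : Type*} : List V → Ch V
  | [] => 0
  | v :: t => Finsupp.single t 1 + cone v (bdL t)

theorem bdL_nil {V : Type*} : bdL ([] : List V) = 0 := rfl

theorem bdL_cons {V : Type*} (v : V) (t : List V) :
    bdL (v :: t) = Finsupp.single t 1 + cone v (bdL t) := rfl

theorem bdL_eq_sum {V : Type*} (t : List V) :
    bdL t = ∑ i ∈ Finset.range t.length, Finsupp.single (t.eraseIdx i) (1 : ZMod 2) := by
  induction t with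
  | nil => simp [bdL_nil]
  | cons v t ih =>
    rw [bdL_cons, ih, map_sum, List.length_cons, Finset.sum_range_succ']
    rw [add_comm]
    congr 1
    refine Finset.sum_congr rfl fun i _ => ?_
    rw [cone_single, List.eraseIdx_cons_succ]

/-- The boundary operator. -/
noncomputable def bd {V : Type*} : Ch V →ₗ[ZMod 2] Ch V :=
  Finsupp.linearCombination (ZMod 2) bdL

theorem bd_single {V : Type*} (t : List V) (a : ZMod 2) :
    bd (Finsupp.single t a) = a • bdL t := by
  unfold bd
  rw [Finsupp.linearCombination_single]

theorem bd_single_one {V : Type*} (t : List V) :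
    bd (Finsupp.single t 1) = bdL t := by
  rw [bd_single, one_smul]

/-- Two linear maps on chains agree if they agree on tuples. -/
theorem ch_ext {V : Type*} {M : Type*} [AddCommGroup M] [Module (ZMod 2) M]
    {f g : Ch V →ₗ[ZMod 2] M}
    (h : ∀ t : List V, f (Finsupp.single t 1) = g (Finsupp.single t 1)) : f = g := by
  apply Finsupp.lhom_ext
  intro t a
  have h1 : (Finsupp.single t a : Ch V) = a • Finsupp.single t 1 := by
    rw [Finsupp.smul_single, smul_eq_mul, mul_one]
  rw [h1, map_smul, map_smul, h]

theorem ch_add_self {M : Type*} [AddCommGroup M] [Module (ZMod 2) M] (c : M) : c + c = 0 := by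
  have h : (2 : ZMod 2) • c = c + c := two_smul _ c
  have h2 : (2 : ZMod 2) = 0 := by decide
  rw [← h, h2, zero_smul]

theorem ch_eq_iff {M : Type*} [AddCommGroup M] [Module (ZMod 2) M] (a b : M) :
    a = b ↔ a + b = 0 := by
  constructor
  · rintro rfl
    exact ch_add_self a
  · intro h
    have h1 : a + b + b = b := by rw [h, zero_add]
    rwa [add_assoc, ch_add_self, add_zero] at h1

theorem ch_neg {M : Type*} [AddCommGroup M] [Module (ZMod 2) M] (c : M) : -c = c := by
  rw [neg_eq_iff_add_eq_zero]
  exact ch_add_self c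

theorem bd_cone {V : Type*} (v : V) (c : Ch V) : bd (cone v c) = c + cone v (bd c) := by
  have h : bd.comp (cone v) = LinearMap.id + (cone v).comp (bd (V := V)) := by
    apply ch_ext
    intro t
    rw [LinearMap.comp_apply, LinearMap.add_apply, LinearMap.comp_apply, cone_single,
      bd_single_one, bd_single_one, bdL_cons, LinearMap.id_apply]
  have h2 := congrArg (fun f => f c) h
  simpa using h2

theorem bd_bdL {V : Type*} (t : List V) : bd (bdL t) = 0 := by
  induction t with
  | nil => rw [bdL_nil, map_zero]
  | cons v t ih =>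
    rw [bdL_cons, map_add, bd_single_one, bd_cone, ih, map_zero, add_zero]
    exact ch_add_self _

theorem bd_bd {V : Type*} (c : Ch V) : bd (bd c) = 0 := by
  have h : bd.comp (bd (V := V)) = 0 := by
    apply ch_ext
    intro t
    rw [LinearMap.comp_apply, bd_single_one, bd_bdL, LinearMap.zero_apply]
  have h2 := congrArg (fun f => f c) h
  simpa using h2

/-- The chain map induced by a map of vertices. -/
noncomputable def mapC {V W : Type*} (f : V → W) : Ch V →ₗ[ZMod 2] Ch W :=
  Finsupp.lmapDomain (ZMod 2) (ZMod 2) (List.map f)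

theorem mapC_single {V W : Type*} (f : V → W) (t : List V) (a : ZMod 2) :
    mapC f (Finsupp.single t a) = Finsupp.single (t.map f) a := by
  unfold mapC
  rw [Finsupp.lmapDomain_apply, Finsupp.mapDomain_single]

theorem mapC_cone {V W : Type*} (f : V → W) (v : V) (c : Ch V) :
    mapC f (cone v c) = cone (f v) (mapC f c) := by
  have h : (mapC f).comp (cone v) = (cone (f v)).comp (mapC f) := by
    apply ch_ext
    intro t
    rw [LinearMap.comp_apply, LinearMap.comp_apply, cone_single, mapC_single, mapC_single,
      cone_single, List.map_cons]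
  have h2 := congrArg (fun g => g c) h
  simpa using h2

theorem mapC_bdL {V W : Type*} (f : V → W) (t : List V) : mapC f (bdL t) = bdL (t.map f) := by
  induction t with
  | nil => rw [bdL_nil, map_zero, List.map_nil, bdL_nil]
  | cons v t ih =>
    rw [bdL_cons, map_add, mapC_single, mapC_cone, ih, List.map_cons, bdL_cons]

theorem mapC_bd {V W : Type*} (f : V → W) (c : Ch V) : mapC f (bd c) = bd (mapC f c) := by
  have h : (mapC f).comp bd = bd.comp (mapC f) := by
    apply ch_ext
    intro t
    rw [LinearMap.comp_apply, LinearMap.comp_apply, bd_single_one, mapC_single, bd_single_one,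
      mapC_bdL]
  have h2 := congrArg (fun g => g c) h
  simpa using h2

theorem mapC_mapC {U V W : Type*} (f : U → V) (g : V → W) (c : Ch U) :
    mapC g (mapC f c) = mapC (fun x => g (f x)) c := by
  have h : (mapC g).comp (mapC f) = mapC (fun x => g (f x)) := by
    apply ch_ext
    intro t
    rw [LinearMap.comp_apply, mapC_single, mapC_single, mapC_single, List.map_map]
    rfl
  have h2 := congrArg (fun g => g c) h
  simpa using h2

theorem mapC_id {V : Type*} (c : Ch V) : mapC (fun x : V => x) c = c := by
  have h : mapC (fun x : V => x) = LinearMap.id := by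
    apply ch_ext
    intro t
    rw [mapC_single, LinearMap.id_apply, List.map_id']
  rw [h, LinearMap.id_apply]

/-- Chains all of whose tuples satisfy `P`. -/
abbrev On {V : Type*} (P : List V → Prop) : Submodule (ZMod 2) (Ch V) :=
  Finsupp.supported (ZMod 2) (ZMod 2) {t | P t}

theorem mem_on {V : Type*} {P : List V → Prop} {c : Ch V} :
    c ∈ On P ↔ ∀ t ∈ c.support, P t := by
  rw [Finsupp.mem_supported]
  constructor
  · intro h t ht
    exact h ht
  · intro h t ht
    exact h t ht

theorem single_mem_on {V : Type*} {P : List V → Prop} {t : List V} (a : ZMod 2) (h : P t) :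
    (Finsupp.single t a : Ch V) ∈ On P := by
  rw [mem_on]
  intro t' ht'
  have h1 := Finsupp.support_single_subset ht'
  rw [Finset.mem_singleton] at h1
  rw [h1]
  exact h

theorem on_mono {V : Type*} {P P' : List V → Prop} (h : ∀ t, P t → P' t) {c : Ch V}
    (hc : c ∈ On P) : c ∈ On P' := by
  rw [mem_on] at hc ⊢
  exact fun t ht => h t (hc t ht)

/-- A linear map sends `On P` into a submodule if it does so on tuples. -/
theorem on_map {V : Type*} {M : Type*} [AddCommGroup M] [Module (ZMod 2) M]
    (f : Ch V →ₗ[ZMod 2] M) {P : List V → Prop} (S : Submodule (ZMod 2) M)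
    (h : ∀ t, P t → f (Finsupp.single t 1) ∈ S) {c : Ch V} (hc : c ∈ On P) : f c ∈ S := by
  rw [mem_on] at hc
  have h1 : c = ∑ t ∈ c.support, c t • Finsupp.single t (1 : ZMod 2) := by
    conv_lhs => rw [← Finsupp.sum_single c]
    rw [Finsupp.sum]
    refine Finset.sum_congr rfl fun t _ => ?_
    rw [Finsupp.smul_single, smul_eq_mul, mul_one]
  rw [h1, map_sum]
  refine Submodule.sum_mem _ fun t ht => ?_
  rw [map_smul]
  exact Submodule.smul_mem _ _ (h t (hc t ht))

/-- Two linear maps agree on `On P` if they agree on the tuples of `P`. -/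
theorem on_ext {V : Type*} {M : Type*} [AddCommGroup M] [Module (ZMod 2) M]
    (f g : Ch V →ₗ[ZMod 2] M) {P : List V → Prop}
    (h : ∀ t, P t → f (Finsupp.single t 1) = g (Finsupp.single t 1)) {c : Ch V}
    (hc : c ∈ On P) : f c = g c := by
  have h1 : (f - g) c ∈ (⊥ : Submodule (ZMod 2) M) := by
    apply on_map (f - g) (P := P) ⊥ _ hc
    intro t ht
    rw [LinearMap.sub_apply, h t ht, sub_self]
    exact Submodule.zero_mem _
  rw [Submodule.mem_bot, LinearMap.sub_apply, sub_eq_zero] at h1
  exact h1

theorem cone_mem_on {V : Type*} {P Q : List V → Prop} {v : V} (h : ∀ t, P t → Q (v :: t))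
    {c : Ch V} (hc : c ∈ On P) : cone v c ∈ On Q := by
  apply on_map (cone v) (On Q) _ hc
  intro t ht
  rw [cone_single]
  exact single_mem_on 1 (h t ht)

theorem mapC_mem_on {V W : Type*} {f : V → W} {P : List V → Prop} {Q : List W → Prop}
    (h : ∀ t, P t → Q (t.map f)) {c : Ch V} (hc : c ∈ On P) : mapC f c ∈ On Q := by
  apply on_map (mapC f) (On Q) _ hc
  intro t ht
  rw [mapC_single]
  exact single_mem_on 1 (h t ht)

theorem bdL_mem_on {V : Type*} {Q : List V → Prop} {t : List V}
    (h : ∀ i < t.length, Q (t.eraseIdx i)) : bdL t ∈ On Q := by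
  rw [bdL_eq_sum]
  refine Submodule.sum_mem _ fun i hi => ?_
  exact single_mem_on 1 (h i (Finset.mem_range.1 hi))

theorem bd_mem_on {V : Type*} {P Q : List V → Prop}
    (h : ∀ t, P t → ∀ i < t.length, Q (t.eraseIdx i)) {c : Ch V} (hc : c ∈ On P) :
    bd c ∈ On Q := by
  apply on_map bd (On Q) _ hc
  intro t ht
  rw [bd_single_one]
  exact bdL_mem_on (h t ht)

end Pool.Agent.VNP
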