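import Pool.Agent.EssMap.Nil

/-!
# A distorted element in a virtually nilpotent group that is not virtually abelian

In a finitely generated nilpotent group which is not virtually abelian there are elements `z`,
`x`, `y` and a finite set `F` such that `z` has infinite order and finitely many conjugates and
`z ^ (n ^ 2)` lies in `[x ^ n, y ^ n] F` for every `n`; the same holds in every finitely
generated group with a nilpotent subgroup of finite index.
-/

namespace Pool.Agent.VNP

open Subgroup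
open scoped commutatorElement

/-- The group has an abelian subgroup of finite index. -/
def VAb (G : Type) [Group G] : Prop :=
  ∃ A : Subgroup G, A.FiniteIndex ∧ ∀ a ∈ A, ∀ b ∈ A, a * b = b * a

/-- There are a quadratically distorted element of infinite order with finitely many
conjugates. -/
def HasDist (G : Type) [Group G] : Prop :=
  ∃ (z x y : G) (F : Set G), F.Finite ∧ (∀ n : ℕ, 0 < n → z ^ n ≠ 1) ∧
    (Set.range (fun g : G => g⁻¹ * z * g)).Finite ∧
    ∀ n : ℕ, ∃ f ∈ F, z ^ (n ^ 2) = x ^ n * y ^ n * (x ^ n)⁻¹ * (y ^ n)⁻¹ * f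

theorem comm_pow_pow {P : Type} [Group P] (x y : P) (h : ∀ k : ℕ, ⁅x, y ^ k⁆ ∈ center P)
    (n m : ℕ) :
    ⁅x ^ n, y ^ m⁆ = ⁅x, y⁆ ^ (n * m) := by
  have h1 : ∀ m : ℕ, ⁅x, y ^ m⁆ = ⁅x, y⁆ ^ m := by
    intro m
    induction m with
    | zero => simp
    | succ m ih =>
      have h2 : ⁅x, y⁆ ∈ center P := by
        have := h 1
        rwa [pow_one] at this
      rw [pow_succ y m, EssMap.comm_mul_right x (y ^ m) y h2, ih, pow_succ]
  induction n with
  | zero => simp
  | succ n ih =>
    have h3 : ⁅x, y ^ m⁆ ∈ center P := h m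
    rw [pow_succ x n, EssMap.comm_mul_left (x ^ n) x (y ^ m) h3, ih, h1, ← pow_add]
    congr 1
    ring

/-- A finitely generated group that is virtually abelian modulo a finite normal subgroup is
virtually abelian. -/
theorem vab_fin_ext {P : Type} [Group P] [Group.FG P] (C : Subgroup P) [C.Normal]
    (hfin : (C : Set P).Finite) (h : VAb (P ⧸ C)) : VAb P := by
  obtain ⟨A, hA, hab⟩ := h
  set A' : Subgroup P := A.comap (QuotientGroup.mk' C) with hA'
  have hfi : A'.FiniteIndex := by
    constructor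
    rw [hA', Subgroup.index_comap_of_surjective _ (QuotientGroup.mk'_surjective C)]
    exact hA.index_ne_zero
  have : Group.FG A' := Subgroup.fg_of_index_ne_zero A'
  have : Finite (commutatorSet A') := by
    apply Set.Finite.to_subtype
    apply (hfin.preimage (f := fun a : A' => (a : P)) Subtype.val_injective.injOn).subset
    rintro g ⟨a, b, rfl⟩
    show ((⁅a, b⁆ : A') : P) ∈ C
    have h1 : (((⁅a, b⁆ : A') : P) : P ⧸ C) = 1 := by
      have h2 := hab _ a.2 _ b.2
      have h3 : ((a : P) : P ⧸ C) * ((b : P) : P ⧸ C) = ((b : P) : P ⧸ C) * ((a : P) : P ⧸ C) := h2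
      have h4 : (((⁅a, b⁆ : A') : P) : P ⧸ C) = ((a : P) : P ⧸ C) * ((b : P) : P ⧸ C) *
          ((a : P) : P ⧸ C)⁻¹ * ((b : P) : P ⧸ C)⁻¹ := rfl
      rw [h4, h3]
      group
    exact (QuotientGroup.eq_one_iff _).1 h1
  refine ⟨(center A').map A'.subtype, ?_, ?_⟩
  · constructor
    rw [Subgroup.index_map_subtype]
    exact mul_ne_zero (finiteIndex_center (G := A')).index_ne_zero hfi.index_ne_zero
  · rintro _ ⟨a, ha, rfl⟩ _ ⟨b, hb, rfl⟩
    have h4 := (mem_center_iff.1 hb a)
    show (a : P) * (b : P) = (b : P) * (a : P)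
    exact congrArg Subtype.val h4

/-- A finitely generated abelian subgroup generated by elements of finite order is finite. -/
theorem fin_of_gen {P : Type} [Group P] (C : Subgroup P) (hC : C ≤ center P) (hfg : C.FG)
    (X : Set P) (hX : C = closure X) (ht : ∀ x ∈ X, IsOfFinOrder x) : (C : Set P).Finite := by
  have h1 : ∀ a ∈ C, IsOfFinOrder a := by
    intro a ha
    rw [hX] at ha
    have hle : closure X ≤ center P := by rw [← hX]; exact hC
    refine closure_induction (p := fun a _ => IsOfFinOrder a) ?_ ?_ ?_ ?_ ha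
    · intro x hx
      exact ht x hx
    · exact IsOfFinOrder.one
    · intro a b ha' hb' ha hb
      have : Commute a b := ((mem_center_iff.1 (hle hb')) a)
      exact this.isOfFinOrder_mul ha hb
    · intro a _ ha
      exact ha.inv
  have : IsMulCommutative C := ⟨⟨fun a b => Subtype.ext ((mem_center_iff.1 (hC b.2)) a)⟩⟩
  have : Group.FG C := (Group.fg_iff_subgroup_fg C).2 hfg
  let : CommGroup C := { (inferInstance : Group C) with mul_comm := fun a b => Subtype.ext ((mem_center_iff.1 (hC b.2)) a) }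
  have h2 : Finite C := by
    apply CommGroup.finite_of_fg_isMulTorsion
    intro a
    have h3 := h1 a.1 a.2
    exact Submonoid.isOfFinOrder_coe.1 h3
  exact Set.toFinite _

theorem dist_lcs (c : ℕ) : ∀ (P : Type) [Group P] [Group.FG P],
    (⊤ : Subgroup P).lowerCentralSeries c = ⊥ → ¬ VAb P → HasDist P := by
  induction c with
  | zero =>
    intro P _ _ hP hv
    rw [Subgroup.lowerCentralSeries_zero] at hP
    exact absurd ⟨⊤, inferInstance, fun a _ b _ => by
      have h1 : a ∈ (⊤ : Subgroup P) := mem_top a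
      have h2 : b ∈ (⊤ : Subgroup P) := mem_top b
      rw [hP, mem_bot] at h1 h2
      rw [h1, h2]⟩ hv
  | succ c ih =>
    intro P _ _ hP hv
    set C : Subgroup P := (⊤ : Subgroup P).lowerCentralSeries c with hCdef
    have hCc : C ≤ center P := by
      rw [Subgroup.lowerCentralSeries_succ, commutator_eq_bot_iff_le_centralizer] at hP
      intro z hz
      rw [mem_center_iff]
      intro g
      exact (mem_centralizer_iff.1 (hP hz)) g (mem_top g)
    cases c with
    | zero =>
      rw [hCdef, Subgroup.lowerCentralSeries_zero] at hCc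
      exact absurd ⟨⊤, inferInstance, fun a _ b _ => mem_center_iff.1 (hCc (mem_top b)) a⟩ hv
    | succ c' =>
      set L : Subgroup P := (⊤ : Subgroup P).lowerCentralSeries c' with hL
      have hCL : C = ⁅L, (⊤ : Subgroup P)⁆ := by
        rw [hCdef, Subgroup.lowerCentralSeries_succ]
      have hmem : ∀ a ∈ L, ∀ b : P, ⁅a, b⁆ ∈ C := by
        intro a ha b
        rw [hCL]
        exact commutator_mem_commutator ha (mem_top b)
      by_cases hcase : ∀ a ∈ L, ∀ b : P, IsOfFinOrder ⁅a, b⁆
      · -- the last term is finite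
        have hfgC : C.FG := EssMap.nilp_sub_fg _ P hP C
        have hfin : (C : Set P).Finite := by
          refine fin_of_gen C hCc hfgC { g | ∃ g₁ ∈ L, ∃ g₂ ∈ (⊤ : Subgroup P), ⁅g₁, g₂⁆ = g } ?_ ?_
          · rw [hCL, Subgroup.commutator_def]
          · rintro g ⟨a, ha, b, _, rfl⟩
            exact hcase a ha b
        have hquo : (⊤ : Subgroup (P ⧸ C)).lowerCentralSeries (c' + 1) = ⊥ := by
          have h3 := map_lowerCentralSeries (⊤ : Subgroup P) (QuotientGroup.mk' C) (c' + 1)
          rw [Subgroup.map_top_of_surjective _ (QuotientGroup.mk'_surjective C)] at h3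
          rw [← h3, ← hCdef, Subgroup.map_eq_bot_iff, QuotientGroup.ker_mk']
        obtain ⟨zb, xb, yb, Fb, hFb, hzb, hcb, hnb⟩ := ih (P ⧸ C) hquo
          (fun h => hv (vab_fin_ext C hfin h))
        obtain ⟨z, rfl⟩ := QuotientGroup.mk_surjective zb
        obtain ⟨x, rfl⟩ := QuotientGroup.mk_surjective xb
        obtain ⟨y, rfl⟩ := QuotientGroup.mk_surjective yb
        have hpre : ∀ S : Set (P ⧸ C), S.Finite → ((fun g : P => (g : P ⧸ C)) ⁻¹' S).Finite := by
          intro S hS
          apply hS.preimage'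
          intro q _
          obtain ⟨g, rfl⟩ := QuotientGroup.mk_surjective q
          apply (hfin.image (fun c => g * c)).subset
          intro x hx
          have hx' : (x : P ⧸ C) = (g : P ⧸ C) := hx
          refine ⟨g⁻¹ * x, ?_, by group⟩
          exact QuotientGroup.eq.1 hx'.symm
        refine ⟨z, x, y, (fun g : P => (g : P ⧸ C)) ⁻¹' Fb, hpre _ hFb, ?_, ?_, ?_⟩
        · intro n hn h
          apply hzb n hn
          rw [← QuotientGroup.mk_pow, h, QuotientGroup.mk_one]
        · apply (hpre _ hcb).subset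
          rintro _ ⟨g, rfl⟩
          exact ⟨(g : P ⧸ C), rfl⟩
        · intro n
          obtain ⟨f, hf, hzf⟩ := hnb n
          refine ⟨(x ^ n * y ^ n * (x ^ n)⁻¹ * (y ^ n)⁻¹)⁻¹ * z ^ (n ^ 2), ?_, by group⟩
          show (((x ^ n * y ^ n * (x ^ n)⁻¹ * (y ^ n)⁻¹)⁻¹ * z ^ (n ^ 2) : P) : P ⧸ C) ∈ Fb
          have h5 : (((x ^ n * y ^ n * (x ^ n)⁻¹ * (y ^ n)⁻¹)⁻¹ * z ^ (n ^ 2) : P) : P ⧸ C)
              = ((x : P ⧸ C) ^ n * (y : P ⧸ C) ^ n * ((x : P ⧸ C) ^ n)⁻¹ *
                ((y : P ⧸ C) ^ n)⁻¹)⁻¹ * (z : P ⧸ C) ^ (n ^ 2) := rfl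
          rw [h5, hzf]
          have h6 : ((x : P ⧸ C) ^ n * (y : P ⧸ C) ^ n * ((x : P ⧸ C) ^ n)⁻¹ *
                ((y : P ⧸ C) ^ n)⁻¹)⁻¹ * ((x : P ⧸ C) ^ n * (y : P ⧸ C) ^ n *
                ((x : P ⧸ C) ^ n)⁻¹ * ((y : P ⧸ C) ^ n)⁻¹ * f) = f := by group
          rw [h6]
          exact hf
      · push Not at hcase
        obtain ⟨x, hx, y, hxy⟩ := hcase
        have hz : ⁅x, y⁆ ∈ center P := hCc (hmem x hx y)
        refine ⟨⁅x, y⁆, x, y, {1}, Set.finite_singleton 1, ?_, ?_, ?_⟩
        · intro n hn h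
          exact hxy (isOfFinOrder_iff_pow_eq_one.2 ⟨n, hn, h⟩)
        · apply (Set.finite_singleton ⁅x, y⁆).subset
          rintro _ ⟨g, rfl⟩
          have := mem_center_iff.1 hz g⁻¹
          show g⁻¹ * ⁅x, y⁆ * g = ⁅x, y⁆
          rw [this]
          group
        · intro n
          refine ⟨1, rfl, ?_⟩
          have h7 := comm_pow_pow x y (fun k => hCc (hmem x hx _)) n n
          rw [mul_one, ← commutatorElement_def, h7, pow_two]

theorem dist_nilp (P : Type) [Group P] [Group.FG P] [Group.IsNilpotent P] (h : ¬ VAb P) :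
    HasDist P := by
  obtain ⟨n, hn⟩ := Subgroup.nilpotent_iff_lowerCentralSeries.1 (inferInstance : Group.IsNilpotent P)
  exact dist_lcs n P hn h

theorem vab_sub {G : Type} [Group G] (P : Subgroup G) [P.FiniteIndex] (h : VAb P) : VAb G := by
  obtain ⟨A, hA, hab⟩ := h
  refine ⟨A.map P.subtype, ?_, ?_⟩
  · constructor
    rw [Subgroup.index_map_subtype]
    exact mul_ne_zero hA.index_ne_zero (Subgroup.FiniteIndex.index_ne_zero)
  · rintro _ ⟨a, ha, rfl⟩ _ ⟨b, hb, rfl⟩
    exact congrArg Subtype.val (hab a ha b hb)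

theorem dist_of_sub {G : Type} [Group G] (P : Subgroup G) [P.FiniteIndex] (h : HasDist P) :
    HasDist G := by
  obtain ⟨z, x, y, F, hF, hz, hc, hn⟩ := h
  refine ⟨z, x, y, (fun a : P => (a : G)) '' F, hF.image _, ?_, ?_, ?_⟩
  · intro n hn h
    apply hz n hn
    exact Subtype.ext (by push_cast; exact h)
  · -- finitely many conjugates
    have : Finite (G ⧸ P) := Subgroup.finite_quotient_of_finiteIndex
    have hfin : ((Set.univ : Set (G ⧸ P)) ×ˢ
        (Set.range (fun g : P => g⁻¹ * z * g))).Finite := Set.finite_univ.prod hc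
    apply (hfin.image (fun t : (G ⧸ P) × P =>
      (Quotient.out t.1 : G) * (t.2 : G) * (Quotient.out t.1 : G)⁻¹)).subset
    rintro _ ⟨g, rfl⟩
    have h1 : (Quotient.out ((g⁻¹ : G) : G ⧸ P))⁻¹ * g⁻¹ ∈ P :=
      QuotientGroup.eq.1 (Quotient.out_eq' ((g⁻¹ : G) : G ⧸ P))
    set t : G := Quotient.out ((g⁻¹ : G) : G ⧸ P) with ht
    have h2 : (t⁻¹ * g⁻¹)⁻¹ ∈ P := P.inv_mem h1
    refine ⟨(((g⁻¹ : G) : G ⧸ P), (⟨_, h2⟩ : P)⁻¹ * z * ⟨_, h2⟩), ⟨Set.mem_univ _, ⟨_, rfl⟩⟩, ?_⟩
    show t * (((⟨_, h2⟩ : P)⁻¹ * z * ⟨_, h2⟩ : P) : G) * t⁻¹ = g⁻¹ * z * g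
    push_cast
    group
  · intro n
    obtain ⟨f, hf, hzf⟩ := hn n
    refine ⟨f, ⟨f, hf, rfl⟩, ?_⟩
    have := congrArg (fun a : P => (a : G)) hzf
    simpa using this

/-- A finitely generated virtually nilpotent group that is not virtually abelian contains a
quadratically distorted element of infinite order with finitely many conjugates. -/
theorem dist_vnilp (G : Type) [Group G] [Group.FG G] (P : Subgroup G) [P.FiniteIndex]
    [Group.IsNilpotent P] (h : ¬ VAb G) : HasDist G := by
  have : Group.FG P := Subgroup.fg_of_index_ne_zero P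
  exact dist_of_sub P (dist_nilp P (fun h' => h (vab_sub P h')))

end Pool.Agent.VNP
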