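import Mathlib

/-!
# The end of the argument: growth of powers

`end_growth`: a function with `f (2 m) ≥ 2 f m - 2 C3`, unbounded on squares, cannot satisfy
`f (n ^ 2) ≤ C n + C`.
-/

namespace Pool.Agent.VNP

/-- Iterated doubling. -/
theorem end_iter (f : ℕ → ℕ) (C3 : ℕ)
    (h2 : ∀ m, 1 ≤ m → 2 * f m ≤ f (2 * m) + 2 * C3) (m : ℕ) (hm : 1 ≤ m)
    (hf : 2 * C3 + 1 ≤ f m) (k : ℕ) : 2 ^ k + 2 * C3 ≤ f (2 ^ k * m) := by
  induction k with
  | zero => simpa [Nat.add_comm] using hf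
  | succ k ih =>
    have h1 : 1 ≤ 2 ^ k * m := Nat.mul_pos (Nat.pow_pos (by norm_num)) hm
    have h3 := h2 (2 ^ k * m) h1
    have h4 : 2 * (2 ^ k * m) = 2 ^ (k + 1) * m := by ring
    rw [h4] at h3
    have h5 : 2 ^ (k + 1) = 2 * 2 ^ k := by ring
    omega

theorem end_growth (f : ℕ → ℕ) (C3 C : ℕ)
    (h2 : ∀ m, 1 ≤ m → 2 * f m ≤ f (2 * m) + 2 * C3)
    (hinf : ∀ B, ∃ s, 1 ≤ s ∧ B ≤ f (s ^ 2))
    (hsq : ∀ n, f (n ^ 2) ≤ C * n + C) : False := by
  obtain ⟨s, hs1, hs⟩ := hinf (2 * C3 + 1)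
  have hs2 : 1 ≤ s ^ 2 := Nat.pow_pos hs1
  -- choose j with 2 ^ j > C * s + C
  set j := C * s + C with hj
  have h3 := end_iter f C3 h2 (s ^ 2) hs2 hs (2 * j)
  have h4 : 2 ^ (2 * j) * s ^ 2 = (2 ^ j * s) ^ 2 := by
    rw [mul_pow, ← pow_mul, Nat.mul_comm j 2]
  rw [h4] at h3
  have h5 := hsq (2 ^ j * s)
  have h6 : j < 2 ^ j := Nat.lt_two_pow_self
  have h7 : 2 ^ (2 * j) = 2 ^ j * 2 ^ j := by rw [two_mul, pow_add]
  have h8 : C * (2 ^ j * s) + C ≤ 2 ^ j * (C * s + C) := by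
    have : 1 ≤ 2 ^ j := Nat.pow_pos (by norm_num)
    nlinarith [Nat.zero_le (C * (2 ^ j - 1))]
  have h9 : 2 ^ j * (C * s + C) < 2 ^ j * 2 ^ j := by
    have : 0 < 2 ^ j := Nat.pow_pos (by norm_num)
    exact Nat.mul_lt_mul_of_pos_left (by rw [← hj]; exact h6) this
  omega

variable {G : Type*} [Group G]

/-- Powers of conjugates. -/
theorem end_conj_pow (z g : G) (m : ℕ) : g⁻¹ * z ^ m * g = (g⁻¹ * z * g) ^ m := by
  have := conj_pow (i := m) (a := g⁻¹) (b := z)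
  simpa using this.symm

/-- If `z` has finitely many conjugates then conjugation changes the lengths of its powers by
a bounded amount. -/
theorem conj_len (len : G → ℕ) (hmul : ∀ g h, len (g * h) ≤ len g + len h) (z : G)
    (hz : (Set.range (fun g : G => g⁻¹ * z * g)).Finite) :
    ∃ C0 : ℕ, ∀ (m : ℕ) (g : G), len (g⁻¹ * z ^ m * g) ≤ len (z ^ m) + 2 * C0 ∧
      len (z ^ m) ≤ len (g⁻¹ * z ^ m * g) + 2 * C0 := by
  classical
  -- a section of the set of conjugates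
  choose s hs using fun c : Set.range (fun g : G => g⁻¹ * z * g) => c.2
  have : Finite (Set.range (fun g : G => g⁻¹ * z * g)) := hz
  obtain ⟨C0, hC0⟩ : ∃ C0 : ℕ, ∀ c, len (s c) ≤ C0 ∧ len (s c)⁻¹ ≤ C0 := by
    have := Fintype.ofFinite (Set.range (fun g : G => g⁻¹ * z * g))
    refine ⟨Finset.univ.sup (fun c => len (s c)) + Finset.univ.sup (fun c => len (s c)⁻¹),
      fun c => ⟨?_, ?_⟩⟩
    · have := Finset.le_sup (f := fun c => len (s c)) (Finset.mem_univ c)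
      omega
    · have := Finset.le_sup (f := fun c => len (s c)⁻¹) (Finset.mem_univ c)
      omega
  refine ⟨C0, fun m g => ?_⟩
  set c : Set.range (fun g : G => g⁻¹ * z * g) := ⟨g⁻¹ * z * g, g, rfl⟩ with hc
  have h1 : (s c)⁻¹ * z * s c = g⁻¹ * z * g := hs c
  have h2 : g⁻¹ * z ^ m * g = (s c)⁻¹ * z ^ m * s c := by
    rw [end_conj_pow, end_conj_pow, h1]
  rw [h2]
  obtain ⟨h3, h4⟩ := hC0 c
  constructor
  · have h5 := hmul ((s c)⁻¹ * z ^ m) (s c)
    have h6 := hmul (s c)⁻¹ (z ^ m)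
    omega
  · have h5 : z ^ m = s c * ((s c)⁻¹ * z ^ m * s c) * (s c)⁻¹ := by group
    have h6 := hmul (s c * ((s c)⁻¹ * z ^ m * s c)) (s c)⁻¹
    have h7 := hmul (s c) ((s c)⁻¹ * z ^ m * s c)
    rw [← h5] at h6
    omega

theorem len_pow_le (len : G → ℕ) (hone : len 1 = 0) (hmul : ∀ g h, len (g * h) ≤ len g + len h)
    (x : G) (n : ℕ) : len (x ^ n) ≤ n * len x := by
  induction n with
  | zero => simp [hone]
  | succ n ih =>
    rw [pow_succ]
    have := hmul (x ^ n) x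
    have h : (n + 1) * len x = n * len x + len x := by ring
    omega

/-- A distorted element contradicts the doubling inequality. -/
theorem end_group (len : G → ℕ) (hone : len 1 = 0) (hmul : ∀ g h, len (g * h) ≤ len g + len h)
    (hball : ∀ n, {g : G | len g ≤ n}.Finite) (z x y : G) (F : Set G) (hF : F.Finite)
    (hz : ∀ n : ℕ, 0 < n → z ^ n ≠ 1)
    (hsq : ∀ n : ℕ, ∃ f ∈ F, z ^ (n ^ 2) = (x ^ n * y ^ n * (x ^ n)⁻¹ * (y ^ n)⁻¹) * f)
    (C3 : ℕ) (h2 : ∀ m, 1 ≤ m → 2 * len (z ^ m) ≤ len (z ^ (2 * m)) + 2 * C3) : False := by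
  classical
  obtain ⟨M, hM⟩ : ∃ M : ℕ, ∀ f ∈ F, len f ≤ M := by
    obtain ⟨M, hM⟩ := (hF.image len).bddAbove
    exact ⟨M, fun f hf => hM ⟨f, hf, rfl⟩⟩
  set C := len x + len y + len x⁻¹ + len y⁻¹ + M with hC
  refine end_growth (fun m => len (z ^ m)) C3 C h2 ?_ ?_
  · intro B
    by_contra hcon
    push Not at hcon
    -- the elements z ^ (s ^ 2), s ≥ 1, all lie in a finite ball, but are different
    have hinj : Function.Injective (fun s : ℕ => z ^ ((s + 1) ^ 2)) := by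
      intro a b hab
      simp only at hab
      by_contra hne
      rcases lt_or_gt_of_ne hne with h | h
      · have h3 : (a + 1) ^ 2 < (b + 1) ^ 2 := Nat.pow_lt_pow_left (by omega) (by norm_num)
        apply hz ((b + 1) ^ 2 - (a + 1) ^ 2) (by omega)
        have h4 : z ^ ((b + 1) ^ 2) = z ^ ((a + 1) ^ 2) * z ^ ((b + 1) ^ 2 - (a + 1) ^ 2) := by
          rw [← pow_add]
          congr 1
          omega
        rw [← hab] at h4
        exact (mul_eq_left.mp h4.symm)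
      · have h3 : (b + 1) ^ 2 < (a + 1) ^ 2 := Nat.pow_lt_pow_left (by omega) (by norm_num)
        apply hz ((a + 1) ^ 2 - (b + 1) ^ 2) (by omega)
        have h4 : z ^ ((a + 1) ^ 2) = z ^ ((b + 1) ^ 2) * z ^ ((a + 1) ^ 2 - (b + 1) ^ 2) := by
          rw [← pow_add]
          congr 1
          omega
        rw [hab] at h4
        exact (mul_eq_left.mp h4.symm)
    refine Set.infinite_of_injective_forall_mem (s := {g : G | len g ≤ B}) hinj ?_ (hball B)
    intro s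
    exact (hcon (s + 1) (by omega)).le
  · intro n
    obtain ⟨f, hf, hfe⟩ := hsq n
    rw [hfe]
    have h3 := hmul (x ^ n * y ^ n * (x ^ n)⁻¹ * (y ^ n)⁻¹) f
    have h4 := hmul (x ^ n * y ^ n * (x ^ n)⁻¹) (y ^ n)⁻¹
    have h5 := hmul (x ^ n * y ^ n) (x ^ n)⁻¹
    have h6 := hmul (x ^ n) (y ^ n)
    have h7 := len_pow_le len hone hmul x n
    have h8 := len_pow_le len hone hmul y n
    have h9 := len_pow_le len hone hmul x⁻¹ n
    have h10 := len_pow_le len hone hmul y⁻¹ n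
    rw [inv_pow] at h9 h10
    have h11 := hM f hf
    have h12 : C * n = n * len x + n * len y + n * len x⁻¹ + n * len y⁻¹ + n * M := by
      rw [hC]; ring
    have h13 : M ≤ C := by omega
    omega

end Pool.Agent.VNP
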