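import Pool.Agent.VNP.Lab

/-!
# Antipodal labellings of the far pairs of a group
-/

namespace Pool.Agent.VNP

open Subgroup

/-- Antipodal labellings of far pairs with `D` labels up to sign. -/
def PLab (G : Type) [Group G] (D : ℕ) : Prop :=
  ∀ R : Set G, R.Finite → ∃ (K : Set G) (lam : G × G → ℤ), K.Finite ∧
    (∀ x y, x⁻¹ * y ∉ K → y⁻¹ * x ∉ K) ∧
    (∀ x y, x⁻¹ * y ∉ K → 1 ≤ |lam (x, y)| ∧ |lam (x, y)| ≤ D) ∧
    (∀ x y, x⁻¹ * y ∉ K → lam (y, x) = - lam (x, y)) ∧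
    (∀ x y x' y', x⁻¹ * x' ∈ R → y⁻¹ * y' ∈ R → x⁻¹ * y ∉ K → x'⁻¹ * y' ∉ K →
      lam (x', y') ≠ - lam (x, y))

/-- Passing to a group containing a labelled subgroup of finite index. -/
theorem plab_of_fi {G : Type} [Group G] (N : Subgroup G) [N.FiniteIndex] {D : ℕ}
    (h : Lab N D) : PLab G D := by
  classical
  intro R hR
  -- the decomposition x = n x * t x
  have hex : ∀ x : G, ∃ n : N, x = (n : G) * ((x⁻¹ : G) : G ⧸ N).out⁻¹ := by
    intro x
    have h1 : (((x⁻¹ : G) : G ⧸ N).out)⁻¹ * x⁻¹ ∈ N :=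
      QuotientGroup.eq.1 (QuotientGroup.out_eq' _)
    refine ⟨⟨_, N.inv_mem h1⟩, ?_⟩
    simp
  choose n hn using hex
  set t : G → G := fun x => ((x⁻¹ : G) : G ⧸ N).out⁻¹ with ht
  have htn : ∀ x, x = (n x : G) * t x := hn
  set T : Set G := Set.range t with hT
  have hTfin : T.Finite := by
    have h2 : T ⊆ Set.range (fun q : G ⧸ N => q.out⁻¹) := by
      rintro _ ⟨x, rfl⟩
      exact ⟨_, rfl⟩
    have : Finite (G ⧸ N) := inferInstance
    exact (Set.finite_range _).subset h2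
  have htT : ∀ x, t x ∈ T := fun x => ⟨x, rfl⟩
  -- the finite set of small corrections
  set F : Set N := {f | ∃ a ∈ T, ∃ b ∈ T, ∃ u ∈ R ∪ R⁻¹, (f : G) = a * u * b⁻¹} with hF
  have hRR : (R ∪ R⁻¹).Finite := hR.union hR.inv
  have hFfin : F.Finite := by
    have h3 : ((fun f : N => (f : G)) '' F).Finite := by
      apply (((hTfin.prod hTfin).prod hRR).image
        (fun p : (G × G) × G => p.1.1 * p.2 * p.1.2⁻¹)).subset
      rintro _ ⟨f, ⟨a, ha, b, hb, u, hu, hf⟩, rfl⟩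
      exact ⟨((a, b), u), ⟨⟨ha, hb⟩, hu⟩, hf.symm⟩
    exact h3.of_finite_image (Subtype.coe_injective.injOn)
  obtain ⟨K, lam, h1, h2, h3, h4, h5⟩ := h F hFfin
  have hKinv : ∀ k ∈ K, k⁻¹ ∈ K := by
    intro k hk
    by_contra hcon
    have := h2 _ hcon
    rw [inv_inv] at this
    exact this hk
  set KG : Set G := {g | ∃ a ∈ T, ∃ b ∈ T, ∃ k ∈ K, g = a⁻¹ * (k : G) * b} with hKG
  have hKGfin : KG.Finite := by
    apply (((hTfin.prod hTfin).prod h1).image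
      (fun p : (G × G) × N => p.1.1⁻¹ * (p.2 : G) * p.1.2)).subset
    rintro g ⟨a, ha, b, hb, k, hk, hg⟩
    exact ⟨((a, b), k), ⟨⟨ha, hb⟩, hk⟩, hg.symm⟩
  have hfar : ∀ x y, x⁻¹ * y ∉ KG → (n x)⁻¹ * n y ∉ K := by
    intro x y hxy hk
    apply hxy
    refine ⟨t x, htT x, t y, htT y, _, hk, ?_⟩
    conv_lhs => rw [htn x, htn y]
    push_cast
    group
  refine ⟨KG, fun p => lam ((n p.1)⁻¹ * n p.2), hKGfin, ?_, ?_, ?_, ?_⟩
  · rintro x y hxy ⟨a, ha, b, hb, k, hk, hg⟩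
    apply hxy
    refine ⟨b, hb, a, ha, k⁻¹, hKinv k hk, ?_⟩
    have h6 : x⁻¹ * y = (y⁻¹ * x)⁻¹ := by group
    rw [h6, hg]
    push_cast
    group
  · intro x y hxy
    obtain ⟨h6, h7⟩ := h3 _ (hfar x y hxy)
    exact ⟨Int.one_le_abs h6, h7⟩
  · intro x y hxy
    have h6 := h4 _ (hfar x y hxy)
    show lam ((n y)⁻¹ * n x) = - lam ((n x)⁻¹ * n y)
    rw [← h6]
    congr 1
    group
  · intro x y x' y' hx hy hxy hxy'
    show lam ((n x')⁻¹ * n y') ≠ - lam ((n x)⁻¹ * n y)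
    have h6 : (n x')⁻¹ * n y' = ((n x')⁻¹ * n x) * ((n x)⁻¹ * n y) * ((n y)⁻¹ * n y') := by
      group
    have hxt : (n x : G) = x * (t x)⁻¹ := by
      rw [eq_mul_inv_iff_mul_eq]
      exact (htn x).symm
    have hxt' : (n x' : G) = x' * (t x')⁻¹ := by
      rw [eq_mul_inv_iff_mul_eq]
      exact (htn x').symm
    have hyt : (n y : G) = y * (t y)⁻¹ := by
      rw [eq_mul_inv_iff_mul_eq]
      exact (htn y).symm
    have hyt' : (n y' : G) = y' * (t y')⁻¹ := by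
      rw [eq_mul_inv_iff_mul_eq]
      exact (htn y').symm
    have hf : (n x')⁻¹ * n x ∈ F := by
      refine ⟨t x', htT x', t x, htT x, (x⁻¹ * x')⁻¹, Or.inr ?_, ?_⟩
      · rw [Set.mem_inv, inv_inv]
        exact hx
      · push_cast
        rw [hxt, hxt']
        group
    have hf' : (n y)⁻¹ * n y' ∈ F := by
      refine ⟨t y, htT y, t y', htT y', y⁻¹ * y', Or.inl hy, ?_⟩
      push_cast
      rw [hyt, hyt']
      group
    rw [h6]
    apply h5 _ _ _ hf hf' (hfar x y hxy)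
    rw [← h6]
    exact hfar x' y' hxy'

/-- Virtually nilpotent groups have antipodal labellings of far pairs. -/
theorem plab_vnilp {G : Type} [Group G] (N : Subgroup G) [N.FiniteIndex] [Group.FG N]
    [Group.IsNilpotent N] : ∃ D, PLab G D := by
  obtain ⟨D, hD⟩ := lab_nilp N
  exact ⟨D, plab_of_fi N hD⟩

end Pool.Agent.VNP
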