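import Pool.Agent.EssMap.Nil

/-!
# Antipodal labellings of finitely generated nilpotent groups

`Lab N D`: for every finite set `F` of elements of `N` the elements outside some finite set `K`
can be labelled by the nonzero integers of absolute value at most `D` such that inverse elements
have opposite labels and `e` and `f * e * f'` (with `f, f'` in `F`) never have opposite labels.
-/

namespace Pool.Agent.VNP

open Subgroup

/-- Antipodal labellings with `D` labels up to sign. -/
def Lab (N : Type) [Group N] (D : ℕ) : Prop :=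
  ∀ F : Set N, F.Finite → ∃ (K : Set N) (lam : N → ℤ), K.Finite ∧
    (∀ e, e ∉ K → e⁻¹ ∉ K) ∧
    (∀ e, e ∉ K → lam e ≠ 0 ∧ |lam e| ≤ D) ∧
    (∀ e, e ∉ K → lam e⁻¹ = - lam e) ∧
    (∀ e f f', f ∈ F → f' ∈ F → e ∉ K → f * e * f' ∉ K → lam (f * e * f') ≠ - lam e)

theorem lab_finite (N : Type) [Group N] [Finite N] : Lab N 0 := by
  intro F hF
  refine ⟨Set.univ, fun _ => 0, Set.finite_univ, ?_, ?_, ?_, ?_⟩
  · intro e he
    exact absurd (Set.mem_univ _) he
  · intro e he
    exact absurd (Set.mem_univ _) he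
  · intro e he
    exact absurd (Set.mem_univ _) he
  · intro e f f' _ _ he
    exact absurd (Set.mem_univ _) he

theorem lab_mono {N : Type} [Group N] {D D' : ℕ} (h : D ≤ D') (hN : Lab N D) : Lab N D' := by
  intro F hF
  obtain ⟨K, lam, h1, h2, h3, h4, h5⟩ := hN F hF
  exact ⟨K, lam, h1, h2, fun e he => ⟨(h3 e he).1, le_trans (h3 e he).2 (by exact_mod_cast h)⟩,
    h4, h5⟩

theorem lab_congr {N M : Type} [Group N] [Group M] (φ : M ≃* N) {D : ℕ} (hN : Lab N D) :
    Lab M D := by
  intro F hF
  obtain ⟨K, lam, h1, h2, h3, h4, h5⟩ := hN (φ '' F) (hF.image _)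
  refine ⟨φ ⁻¹' K, fun e => lam (φ e), h1.preimage (φ.injective.injOn), ?_, ?_, ?_, ?_⟩
  · intro e he
    rw [Set.mem_preimage, map_inv]
    exact h2 _ he
  · intro e he
    exact h3 _ he
  · intro e he
    show lam (φ e⁻¹) = - lam (φ e)
    rw [map_inv]
    exact h4 _ he
  · intro e f f' hf hf' he he'
    show lam (φ (f * e * f')) ≠ - lam (φ e)
    rw [map_mul, map_mul]
    refine h5 _ _ _ ⟨f, hf, rfl⟩ ⟨f', hf', rfl⟩ he ?_
    rw [← map_mul, ← map_mul]
    exact he'

/-- Pulling back along a quotient map with finite kernel. -/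
theorem lab_fin_ext {N : Type} [Group N] (C : Subgroup N) [C.Normal] (hfin : (C : Set N).Finite)
    {D : ℕ} (h : Lab (N ⧸ C) D) : Lab N D := by
  intro F hF
  obtain ⟨K, lam, h1, h2, h3, h4, h5⟩ := h ((fun x : N => (x : N ⧸ C)) '' F) (hF.image _)
  refine ⟨(fun x : N => (x : N ⧸ C)) ⁻¹' K, fun e => lam (e : N ⧸ C), ?_, ?_, ?_, ?_, ?_⟩
  · apply h1.preimage'
    intro q _
    obtain ⟨g, rfl⟩ := QuotientGroup.mk_surjective q
    apply (hfin.image (fun c => g * c)).subset
    intro x hx
    have hx' : (x : N ⧸ C) = (g : N ⧸ C) := hx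
    refine ⟨g⁻¹ * x, ?_, by group⟩
    exact QuotientGroup.eq.1 hx'.symm
  · intro e he
    exact h2 _ he
  · intro e he
    exact h3 _ he
  · intro e he
    exact h4 _ he
  · intro e f f' hf hf' he he'
    exact h5 _ _ _ ⟨f, hf, rfl⟩ ⟨f', hf', rfl⟩ he he'

/-- Central extension by an infinite cyclic group. -/
theorem lab_inf_ext {N : Type} [Group N] (ζ : N) (hζ : ζ ∈ center N) (C : Subgroup N) [C.Normal]
    (hC : C = zpowers ζ) (hinf : ¬ IsOfFinOrder ζ) {D : ℕ} (h : Lab (N ⧸ C) D) :
    Lab N (D + 1) := by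
  classical
  intro F hF
  obtain ⟨K, lam, h1, h2, h3, h4, h5⟩ := h ((fun x : N => (x : N ⧸ C)) '' F) (hF.image _)
  have hinj : ∀ i j : ℤ, ζ ^ i = ζ ^ j → i = j := fun i j hij =>
    (injective_zpow_iff_not_isOfFinOrder.2 hinf) hij
  have hcz : ∀ (k : ℤ) (x : N), ζ ^ k * x = x * ζ ^ k := by
    intro k x
    have : ζ ^ k ∈ center N := Subgroup.zpow_mem _ hζ k
    exact (mem_center_iff.1 this x).symm
  -- the section and the exponent
  set s : N ⧸ C → N := Quotient.out with hs
  have hsq : ∀ q : N ⧸ C, ((s q : N) : N ⧸ C) = q := fun q => Quotient.out_eq' q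
  have hex : ∀ e : N, ∃ k : ℤ, e = s (e : N ⧸ C) * ζ ^ k := by
    intro e
    have h6 : (s (e : N ⧸ C))⁻¹ * e ∈ C := QuotientGroup.eq.1 (hsq _)
    have h6' : (s (e : N ⧸ C))⁻¹ * e ∈ zpowers ζ := (le_of_eq hC) h6
    obtain ⟨k, hk⟩ := mem_zpowers_iff.1 h6'
    exact ⟨k, by rw [hk]; group⟩
  choose m hm using hex
  have hmul : ∀ (e : N) (k : ℤ), m (e * ζ ^ k) = m e + k := by
    intro e k
    have h7 : ((e * ζ ^ k : N) : N ⧸ C) = (e : N ⧸ C) := by
      symm
      rw [QuotientGroup.eq, hC]
      have : e⁻¹ * (e * ζ ^ k) = ζ ^ k := by group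
      rw [this]
      exact zpow_mem_zpowers ζ k
    have h8 := hm (e * ζ ^ k)
    rw [h7] at h8
    have h9 := hm e
    have h10 : s (e : N ⧸ C) * ζ ^ (m (e * ζ ^ k)) = s (e : N ⧸ C) * ζ ^ (m e + k) := by
      rw [← h8, zpow_add, ← mul_assoc, ← h9]
    exact hinj _ _ (mul_left_cancel h10)
  set d : N → ℤ := fun e => m e - m e⁻¹ with hd
  have hdinv : ∀ e, d e⁻¹ = - d e := by
    intro e
    simp only [hd, inv_inv]
    ring
  have hdmul : ∀ (e : N) (k : ℤ), d (e * ζ ^ k) = d e + 2 * k := by
    intro e k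
    have h11 : (e * ζ ^ k)⁻¹ = e⁻¹ * ζ ^ (-k) := by
      rw [mul_inv_rev, ← zpow_neg, hcz]
    simp only [hd, h11, hmul]
    ring
  -- the bound
  obtain ⟨M, hM⟩ : ∃ M : ℤ, ∀ f ∈ F, ∀ f' ∈ F, ∀ q ∈ K, |d (f * s q * f') - d (s q)| ≤ M := by
    have hfin : ((F ×ˢ F) ×ˢ K).Finite := (hF.prod hF).prod h1
    obtain ⟨M, hM⟩ := (hfin.image (fun t : (N × N) × (N ⧸ C) =>
      |d (t.1.1 * s t.2 * t.1.2) - d (s t.2)|)).bddAbove
    refine ⟨M, fun f hf f' hf' q hq => hM ⟨((f, f'), q), ⟨⟨hf, hf'⟩, hq⟩, rfl⟩⟩
  have hclose : ∀ e f f' : N, f ∈ F → f' ∈ F → (e : N ⧸ C) ∈ K →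
      |d (f * e * f') - d e| ≤ M := by
    intro e f f' hf hf' he
    have h12 := hm e
    have h13 : f * e * f' = (f * s (e : N ⧸ C) * f') * ζ ^ (m e) := by
      have h14 : f * e * f' = f * (s (e : N ⧸ C) * ζ ^ m e) * f' := by rw [← h12]
      rw [h14, mul_assoc, mul_assoc, hcz, ← mul_assoc, ← mul_assoc]
    have h15 : d (f * e * f') - d e = d (f * s (e : N ⧸ C) * f') - d (s (e : N ⧸ C)) := by
      have h16 : d e = d (s (e : N ⧸ C)) + 2 * m e := by
        rw [← hdmul, ← h12]
      rw [h16, h13, hdmul]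
      ring
    rw [h15]
    exact hM f hf f' hf' _ he
  refine ⟨{e | (e : N ⧸ C) ∈ K ∧ |d e| < |M| + 1},
    fun e => if (e : N ⧸ C) ∈ K then (if 0 < d e then ((D : ℤ) + 1) else -((D : ℤ) + 1))
      else lam (e : N ⧸ C), ?_, ?_, ?_, ?_, ?_⟩
  · -- finiteness
    have hsub : {e : N | (e : N ⧸ C) ∈ K ∧ |d e| < |M| + 1} ⊆
        ⋃ q ∈ K, (fun k : ℤ => s q * ζ ^ k) '' {k : ℤ | |d (s q) + 2 * k| < |M| + 1} := by
      rintro e ⟨he1, he2⟩
      rw [Set.mem_iUnion₂]
      refine ⟨(e : N ⧸ C), he1, m e, ?_, (hm e).symm⟩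
      show |d (s (e : N ⧸ C)) + 2 * m e| < |M| + 1
      rw [← hdmul, ← hm e]
      exact he2
    refine Set.Finite.subset (h1.biUnion fun q _ => Set.Finite.image _ ?_) hsub
    apply (Set.finite_Icc (-(|M| + 1 + |d (s q)|)) (|M| + 1 + |d (s q)|)).subset
    intro k hk
    have hk' : |d (s q) + 2 * k| < |M| + 1 := hk
    have h17 : |k| ≤ |M| + 1 + |d (s q)| := by
      have h18 := abs_lt.1 hk'
      have h19 := neg_abs_le (d (s q))
      have h20 := le_abs_self (d (s q))
      have h21 := abs_nonneg M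
      have h22 := abs_nonneg (d (s q))
      rw [abs_le]
      constructor <;> linarith [h18.1, h18.2]
    exact ⟨(abs_le.1 h17).1, (abs_le.1 h17).2⟩
  · -- symmetry of K: needs symmetric base set
    intro e he he'
    apply he
    obtain ⟨he1, he2⟩ := he'
    have h23 : (e : N ⧸ C) ∈ K := by
      by_contra hcon
      exact h2 _ hcon he1
    refine ⟨h23, ?_⟩
    rw [hdinv, abs_neg] at he2
    exact he2
  · intro e he
    have hD : (0 : ℤ) ≤ D := Int.natCast_nonneg D
    dsimp only
    split_ifs with hc1 hc2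
    · constructor
      · omega
      · rw [abs_le]
        push_cast
        constructor <;> omega
    · constructor
      · omega
      · rw [abs_le]
        push_cast
        constructor <;> omega
    · obtain ⟨h24, h25⟩ := h3 _ hc1
      refine ⟨h24, le_trans h25 ?_⟩
      push_cast
      omega
  · intro e he
    have h26 : ((e⁻¹ : N) : N ⧸ C) ∈ K ↔ (e : N ⧸ C) ∈ K := by
      constructor
      · intro h27
        by_contra hcon
        exact h2 _ hcon h27
      · intro h27
        by_contra hcon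
        apply h2 _ hcon
        rw [QuotientGroup.mk_inv, inv_inv]
        exact h27
    dsimp only
    by_cases hc1 : (e : N ⧸ C) ∈ K
    · rw [if_pos hc1, if_pos (h26.2 hc1), hdinv]
      have h28 : |M| + 1 ≤ |d e| := by
        by_contra hcon
        exact he ⟨hc1, not_le.1 hcon⟩
      have h29 : d e ≠ 0 := by
        intro h30
        rw [h30, abs_zero] at h28
        have := abs_nonneg M
        omega
      by_cases hc2 : 0 < d e
      · rw [if_pos hc2, if_neg (by omega)]
      · rw [if_neg hc2, if_pos (by omega), neg_neg]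
    · rw [if_neg hc1, if_neg (fun h27 => hc1 (h26.1 h27))]
      exact h4 _ hc1
  · intro e f f' hf hf' he he' heq
    dsimp only at heq
    have hD : (0 : ℤ) ≤ D := Int.natCast_nonneg D
    have hMn := abs_nonneg M
    by_cases hc1 : (e : N ⧸ C) ∈ K
    · have h28 : |M| + 1 ≤ |d e| := by
        by_contra hcon
        exact he ⟨hc1, not_le.1 hcon⟩
      have h31 := hclose e f f' hf hf' hc1
      by_cases hc2 : ((f * e * f' : N) : N ⧸ C) ∈ K
      · rw [if_pos hc1, if_pos hc2] at heq
        have h32 : |M| + 1 ≤ |d (f * e * f')| := by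
          by_contra hcon
          exact he' ⟨hc2, not_le.1 hcon⟩
        have h33 := le_abs_self M
        have h34 := abs_le.1 h31
        rcases le_abs.1 h28 with h35 | h35 <;> rcases le_abs.1 h32 with h36 | h36
        · rw [if_pos (by omega), if_pos (by omega)] at heq
          omega
        · omega
        · omega
        · rw [if_neg (by omega), if_neg (by omega)] at heq
          omega
      · rw [if_pos hc1, if_neg hc2] at heq
        have h37 := (h3 _ hc2).2
        rw [heq] at h37
        split_ifs at h37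
        · rw [abs_neg, abs_of_nonneg (by omega)] at h37
          omega
        · rw [neg_neg, abs_of_nonneg (by omega)] at h37
          omega
    · by_cases hc2 : ((f * e * f' : N) : N ⧸ C) ∈ K
      · rw [if_neg hc1, if_pos hc2] at heq
        have h37 := (h3 _ hc1).2
        have h38 : lam (e : N ⧸ C) = - (if 0 < d (f * e * f') then ((D : ℤ) + 1)
            else -((D : ℤ) + 1)) := by
          rw [heq, neg_neg]
        rw [h38] at h37
        split_ifs at h37
        · rw [abs_neg, abs_of_nonneg (by omega)] at h37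
          omega
        · rw [neg_neg, abs_of_nonneg (by omega)] at h37
          omega
      · rw [if_neg hc1, if_neg hc2] at heq
        exact h5 (e : N ⧸ C) (f : N ⧸ C) (f' : N ⧸ C) ⟨f, hf, rfl⟩ ⟨f', hf', rfl⟩ hc1 hc2 heq

/-- Central cyclic extension. -/
theorem lab_cyc_ext {N : Type} [Group N] (ζ : N) (hζ : ζ ∈ center N) (C : Subgroup N) [C.Normal]
    (hC : C = zpowers ζ) {D : ℕ} (h : Lab (N ⧸ C) D) : Lab N (D + 1) := by
  by_cases hfin : IsOfFinOrder ζ
  · apply lab_mono (Nat.le_succ D)
    apply lab_fin_ext C _ h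
    rw [hC]
    exact finite_zpowers.2 hfin
  · exact lab_inf_ext ζ hζ C hC hfin h

/-- Central finitely generated extension. -/
theorem lab_central (n : ℕ) : ∀ (N : Type) [Group N] (C : Subgroup N) [C.Normal]
    (_ : C ≤ center N) (S : Finset N) (_ : S.card ≤ n) (_ : closure (S : Set N) = C) (D : ℕ)
    (_ : Lab (N ⧸ C) D), Lab N (D + n) := by
  classical
  induction n with
  | zero =>
    intro N _ C _ hC S hS hcl D h
    have hS0 : S = ∅ := Finset.card_eq_zero.1 (Nat.le_zero.1 hS)
    have hC0 : C = ⊥ := by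
      rw [← hcl, hS0, Finset.coe_empty, Subgroup.closure_empty]
    subst hC0
    exact lab_congr QuotientGroup.quotientBot.symm h
  | succ n ih =>
    intro N _ C _ hC S hS hcl D h
    rcases Finset.eq_empty_or_nonempty S with hS0 | ⟨ζ, hζS⟩
    · have hC0 : C = ⊥ := by
        rw [← hcl, hS0, Finset.coe_empty, Subgroup.closure_empty]
      subst hC0
      exact lab_mono (Nat.le_add_right _ _) (lab_congr QuotientGroup.quotientBot.symm h)
    · have hζC : ζ ∈ C := by
        rw [← hcl]
        exact subset_closure hζS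
      have hζ : ζ ∈ center N := hC hζC
      have hZn : (zpowers ζ).Normal := by
        constructor
        intro x hx g
        have hx' : x ∈ center N := (zpowers_le.2 hζ) hx
        rw [mem_center_iff.1 hx' g, mul_assoc, mul_inv_cancel, mul_one]
        exact hx
      have hle : zpowers ζ ≤ C := zpowers_le.2 hζC
      set π := QuotientGroup.mk' (zpowers ζ) with hπ
      have hsurj : Function.Surjective π := QuotientGroup.mk'_surjective _
      have hn2 : (C.map π).Normal := Subgroup.Normal.map inferInstance π hsurj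
      have e1 : ((N ⧸ zpowers ζ) ⧸ C.map π) ≃* N ⧸ C :=
        QuotientGroup.quotientQuotientEquivQuotient (zpowers ζ) C hle
      have h2 : Lab ((N ⧸ zpowers ζ) ⧸ C.map π) D := lab_congr e1 h
      have h3 : C.map π ≤ center (N ⧸ zpowers ζ) := by
        rintro _ ⟨x, hx, rfl⟩
        rw [mem_center_iff]
        intro g
        obtain ⟨y, rfl⟩ := hsurj g
        rw [← map_mul, ← map_mul, mem_center_iff.1 (hC hx) y]
      have h4 : closure (((S.erase ζ).image π : Finset (N ⧸ zpowers ζ)) :
          Set (N ⧸ zpowers ζ)) = C.map π := by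
        rw [← hcl, MonoidHom.map_closure]
        apply le_antisymm
        · apply Subgroup.closure_mono
          rw [Finset.coe_image]
          exact Set.image_mono (by exact_mod_cast Finset.erase_subset ζ S)
        · rw [closure_le]
          rintro _ ⟨x, hx, rfl⟩
          by_cases hxζ : x = ζ
          · have : π x = 1 := by
              rw [hxζ, ← MonoidHom.mem_ker, hπ, QuotientGroup.ker_mk']
              exact mem_zpowers ζ
            rw [this]
            exact one_mem _
          · apply Subgroup.subset_closure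
            rw [Finset.coe_image]
            exact ⟨x, by simpa [hxζ] using hx, rfl⟩
      have h5 : ((S.erase ζ).image π).card ≤ n := by
        refine le_trans Finset.card_image_le ?_
        rw [Finset.card_erase_of_mem hζS]
        omega
      have h6 : Lab (N ⧸ zpowers ζ) (D + n) := ih _ (C.map π) h3 _ h5 h4 D h2
      exact lab_cyc_ext ζ hζ (zpowers ζ) rfl h6

theorem lab_lcs (c : ℕ) : ∀ (P : Type) [Group P] [Group.FG P],
    (⊤ : Subgroup P).lowerCentralSeries c = ⊥ → ∃ D, Lab P D := by
  induction c with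
  | zero =>
    intro P _ _ hP
    rw [Subgroup.lowerCentralSeries_zero] at hP
    have : Subsingleton P := subsingleton_of_forall_eq 1 fun x => by
      have : x ∈ (⊤ : Subgroup P) := mem_top x
      rw [hP] at this
      exact this
    exact ⟨0, lab_finite P⟩
  | succ c ih =>
    intro P _ _ hP
    have hfg := EssMap.nilp_sub_fg (c + 1) P hP
    set Z : Subgroup P := (⊤ : Subgroup P).lowerCentralSeries c with hZdef
    have hZc : Z ≤ center P := by
      rw [Subgroup.lowerCentralSeries_succ, commutator_eq_bot_iff_le_centralizer] at hP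
      intro z hz
      rw [mem_center_iff]
      intro g
      exact (mem_centralizer_iff.1 (hP hz)) g (mem_top g)
    have h2 : ∃ D, Lab (P ⧸ Z) D := by
      apply ih
      have h3 := map_lowerCentralSeries (⊤ : Subgroup P) (QuotientGroup.mk' Z) c
      rw [Subgroup.map_top_of_surjective _ (QuotientGroup.mk'_surjective Z)] at h3
      rw [← h3, ← hZdef, Subgroup.map_eq_bot_iff, QuotientGroup.ker_mk']
    obtain ⟨D, hD⟩ := h2
    obtain ⟨S, hS⟩ := hfg Z
    exact ⟨D + S.card, lab_central S.card P Z hZc S le_rfl hS D hD⟩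

/-- Finitely generated nilpotent groups have antipodal labellings. -/
theorem lab_nilp (P : Type) [Group P] [Group.FG P] [Group.IsNilpotent P] : ∃ D, Lab P D := by
  obtain ⟨c, hc⟩ := Subgroup.nilpotent_iff_lowerCentralSeries.1 (inferInstance : Group.IsNilpotent P)
  exact lab_lcs c P hc

end Pool.Agent.VNP
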